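import Pool.Agent.H53.GM.Targets

/-!
# Forbidden coloured patterns: basic facts
-/

set_option autoImplicit false
set_option linter.unusedVariables false

namespace Pool.Agent.H53.GM

open Pool.Agent.H68.BP Pool.Agent.H58.SF Pool.Agent.H53.GC Pool.Agent.H53.GR
open Classical

/-! ### Types -/

theorem finite_ty (τ : Sig) (N : ℕ) (J : Type) [Finite J] : Finite (Ty τ N J) := by
  have : Finite (Str τ (Fin N)) := by
    unfold Str
    infer_instance
  infer_instance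

theorem finite_kd (τ : Sig) (N k : ℕ) : Finite (Kd τ N k) := by
  have := finite_ty τ N (Fin k)
  infer_instance

section types

variable {τ σ : Sig} {N : ℕ} {W W' J J' J'' : Type} {F : Set (Str τ (Fin N))}

theorem IsHom.comp' {M : Str τ W} {M' : Str τ W'} {U : Type} {M'' : Str τ U} {f : W → W'}
    {g : W' → U} (hf : IsHom M M' f) (hg : IsHom M' M'' g) : IsHom M M'' (fun x => g (f x)) :=
  fun l z hz => hg l _ (hf l z hz)

theorem Val.of_hom {M : Str τ W} {M' : Str τ W'} {f : W → W'} (h : Val F M') (hf : IsHom M M' f) :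
    Val F M := fun D hD g hg => h D hD _ (IsHom.comp' hg hf)

theorem rse_rse {e e' : Finset J} (h : e ⊆ e') (t : Ty τ N J) : rse e (rse e' t) = rse e t := by
  ext q
  constructor
  · rintro ⟨⟨h1, h2⟩, h3⟩
    exact ⟨h1, h3⟩
  · rintro ⟨h1, h3⟩
    exact ⟨⟨h1, fun v i hi => h (h3 v i hi)⟩, h3⟩

theorem rse_mono {e : Finset J} {t t' : Ty τ N J} (h : t ⊆ t') : rse e t ⊆ rse e t' :=
  fun _ hq => ⟨h hq.1, hq.2⟩

theorem rse_sub {e : Finset J} {t : Ty τ N J} : rse e t ⊆ t := fun _ hq => hq.1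

theorem rse_mem {e : Finset J} {t : Ty τ N J} {q : Str τ (Fin N) × (Fin N → Option J)} :
    q ∈ rse e t ↔ q ∈ t ∧ ∀ v i, q.2 v = some i → i ∈ e := Iff.rfl

theorem rs_rs (u : J' → J) (u' : J'' → J') (t : Ty τ N J) :
    rs u' (rs u t) = rs (fun j => u (u' j)) t := by
  ext q
  change (q.1, fun v => ((q.2 v).map u').map u) ∈ t ↔ (q.1, fun v => (q.2 v).map _) ∈ t
  simp only [Option.map_map]
  rfl

theorem rs_mono (u : J' → J) {t t' : Ty τ N J} (h : t ⊆ t') : rs u t ⊆ rs u t' :=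
  fun _ hq => h hq

theorem Rl.rs (u : J' → J) {t : Ty τ N J}
    (hsub : ∀ (W : Type) (M : Str τ W) (a : J → W), tp N M (fun j => a (u j)) =
      Pool.Agent.H53.GM.rs u (tp N M a)) (h : Rl F t) : Rl F (Pool.Agent.H53.GM.rs u t) := by
  obtain ⟨W, hW, M, a, h1, rfl⟩ := h
  exact ⟨W, hW, M, fun j => a (u j), h1, hsub W M a⟩

end types

/-! ### Systems -/

section systems

variable {Q 𝒦 W W' W'' : Type} {K : Cls Q 𝒦}

theorem IsSys.res {C : Sy Q 𝒦 W} (h : IsSys K C) (U : Set W) : IsSys K (C.res U) where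
  tr g κ hg := h.tr g κ hg.1
  dn g κ g' hg hs := ⟨h.dn g κ g' hg.1 hs, fun x hx => hg.2 x (hs hx)⟩
  un g κ κ' hg hg' := h.un g κ κ' hg.1 hg'.1
  ok g κ hg := h.ok g κ hg.1

theorem Hm.refl (C : Sy Q 𝒦 W) : Hm C C (fun x => x) := by
  intro g κ hg
  have : g.image (fun x => x) = g := Finset.image_id'
  rw [this]
  exact ⟨hg, fun x _ => rfl⟩

theorem Hm.comp {C : Sy Q 𝒦 W} {C' : Sy Q 𝒦 W'} {C'' : Sy Q 𝒦 W''} {f : W → W'} {f' : W' → W''}
    (h : Hm C C' f) (h' : Hm C' C'' f') : Hm C C'' (fun x => f' (f x)) := by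
  intro g κ hg
  obtain ⟨h1, h2⟩ := h g κ hg
  obtain ⟨h3, h4⟩ := h' _ κ h1
  refine ⟨?_, fun x hx => ?_⟩
  · have : g.image (fun x => f' (f x)) = (g.image f).image f' := by
      rw [Finset.image_image]
      rfl
    rw [this]
    exact h3
  · rw [h4 _ (Finset.mem_image_of_mem f hx), h2 x hx]

/-- restriction to a larger set -/
theorem Hm.res_mono (C : Sy Q 𝒦 W) {U U' : Set W} (h : U ⊆ U') :
    Hm (C.res U) (C.res U') (fun x => x) := by
  intro g κ hg
  have : g.image (fun x => x) = g := Finset.image_id'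
  rw [this]
  exact ⟨⟨hg.1, fun x hx => h (hg.2 x hx)⟩, fun x _ => rfl⟩

theorem Hm.res_self (C : Sy Q 𝒦 W) (U : Set W) : Hm (C.res U) C (fun x => x) := by
  intro g κ hg
  have : g.image (fun x => x) = g := Finset.image_id'
  rw [this]
  exact ⟨hg.1, fun x _ => rfl⟩

theorem Axs.mono {N : ℕ} {G : (W : Type) → Sy Q 𝒦 W → Prop} (hG : Axs K N G) (C : Sy Q 𝒦 W)
    {U U' : Set W} (h : U ⊆ U') (h' : G W (C.res U')) : G W (C.res U) :=
  hG.g1 _ _ _ _ _ (Hm.res_mono C h) h'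

theorem Axs.res {N : ℕ} {G : (W : Type) → Sy Q 𝒦 W → Prop} (hG : Axs K N G) (C : Sy Q 𝒦 W)
    (U : Set W) (h' : G W C) : G W (C.res U) :=
  hG.g1 _ _ _ _ _ (Hm.res_self C U) h'

theorem Hm.image_pt {C : Sy Q 𝒦 W} {C' : Sy Q 𝒦 W'} {f : W → W'} (h : Hm C C' f) {g : Finset W}
    {κ : 𝒦} (hg : C.gd g κ) : (g.image f).image C'.pt = g.image C.pt := by
  rw [Finset.image_image]
  exact Finset.image_congr fun x hx => (h g κ hg).2 x hx

end systems

/-! ### Patterns -/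

theorem pat_ix {X : Type} (r : Fin 3) (x y : X) : pat r x y (ix r 0) = x ∧ pat r x y (ix r 1) = y := by
  fin_cases r <;> exact ⟨rfl, rfl⟩

theorem pat_eq_ite {X : Type} (r : Fin 3) (x y : X) (c : Fin 6) :
    pat r x y c = if pat r (0 : Fin 6) 1 c = 0 then x else y := by
  fin_cases r <;> fin_cases c <;> rfl

end Pool.Agent.H53.GM
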