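import Pool.Agent.H53.GM.Basic

/-!
# Forbidden coloured patterns: assembly
-/

set_option autoImplicit false
set_option linter.unusedVariables false

namespace Pool.Agent.H53.GM

open Pool.Agent.H68.BP Pool.Agent.H58.SF Pool.Agent.H53.GC Pool.Agent.H53.GR
open Classical

/-- the axioms for the systems of types -/
theorem asm_ax0 (h1 : T_B1) (h2 : T_B2) (h3 : T_B3) :
    ∀ (τ : Sig) (N k : ℕ) (F : Set (Str τ (Fin N))) (I : Finset (Fin k)), Hyp τ N F →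
      Axs (bC F I) N (Gd0 F I) := by
  intro τ N k F I hF
  exact ⟨fun W W' C C' f => h1 τ N k F I W W' C C' f, fun W _ C => h2 τ N k F I hF W C,
    fun W _ C U₁ U₂ g₀ κ₀ => h3 τ N k F I hF W C U₁ U₂ g₀ κ₀⟩

/-- the algebra -/
theorem asm_noi (hJZ : T_JZ) (hSWI : T_SWI) (hNXT : T_NXT) (hCYC : T_CYC) (hOLK : T_OLK)
    (X 𝓛 : Type) [Finite X] [Nonempty X] [Finite 𝓛] (N k : ℕ)
    (R : 𝓛 → (So N k → X) → Prop) (l₀ : 𝓛) (rd : So N k → So N k → X → X) (hB : Bas R l₀ rd)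
    (hC : ∀ I : Finset (Fin k), Chn R l₀ I) :
    ∃ F : So N k → (Fin 6 → X) → X, Fam R (Fin 6) F ∧
      ∀ e x y r, F e (pat r x y) = F e (pat 0 x y) := by
  have key : ∀ (m : ℕ) (I : Finset (Fin k)), k - I.card ≤ m →
      ¬ ∃ ι : (J : Type) → [Finite J] → [Nonempty J] → (So N k → (J → X) → X) → J,
        Iot R l₀ I ι := by
    intro m
    induction m with
    | zero =>
      rintro I hI ⟨ι, hι⟩
      obtain ⟨⟨e, he⟩, h1, v, hv, h2⟩ := hJZ X 𝓛 N k R l₀ rd I ι hB hι (hC I)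
      have h3 : I.card < (Finset.univ : Finset (Fin k)).card :=
        Finset.card_lt_card ⟨Finset.subset_univ _, fun h => hv (h (Finset.mem_univ v))⟩
      rw [Finset.card_univ, Fintype.card_fin] at h3
      omega
    | succ m ih =>
      rintro I hI ⟨ι, hι⟩
      obtain ⟨⟨e, he⟩, h1, v, hv, h2⟩ := hJZ X 𝓛 N k R l₀ rd I ι hB hι (hC I)
      let I' : Finset (Fin k) := Finset.univ.filter fun v => ∀ e, Loc R l₀ I ι e → v ∈ e.1
      have hII : I ⊆ I' := by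
        intro w hw
        refine Finset.mem_filter.2 ⟨Finset.mem_univ _, fun e he => ?_⟩
        exact (h1 e he).1 hw
      have hvI : v ∈ I' := Finset.mem_filter.2 ⟨Finset.mem_univ _, h2⟩
      have hsub : ∀ e, Loc R l₀ I ι e → I' ⊆ e.1 := fun e he w hw =>
        (Finset.mem_filter.1 hw).2 e he
      have hcard : I'.card ≤ N := (Finset.card_le_card (hsub e he)).trans e.2.2
      have hstr : ∀ e, Loc R l₀ I ι e → I' ⊂ e.1 := by
        intro e' he'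
        refine lt_of_le_of_ne (hsub e' he') fun heq => ?_
        exact hSWI X 𝓛 N k R l₀ rd I ι ⟨I', ⟨v, hvI⟩, hcard⟩ hB hι (fun e he => hsub e he) (by
          have h5 : (⟨I', ⟨v, hvI⟩, hcard⟩ : So N k) = e' := Subtype.ext heq
          rw [h5]
          exact he')
      have hlt : I.card < I'.card :=
        Finset.card_lt_card ⟨hII, fun h => hv (h hvI)⟩
      refine hNXT X 𝓛 N k R l₀ rd I I' ι hB hι hII hstr ?_
      refine hCYC X 𝓛 N k R l₀ rd I' hB (ih I' ?_)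
      omega
  exact hOLK X 𝓛 N k R l₀ rd hB (hCYC X 𝓛 N k R l₀ rd ∅ hB (key k ∅ (by simp)))

theorem bas_RR {τ σ : Sig} {N : ℕ} (F : Set (Str τ (Fin N))) (Al : Fin σ.m → Fin τ.m → Prop)
    (k : ℕ) : Bas (RR F Al k) none (fun a b x => rse a.1 x) := by
  refine ⟨?_, ?_⟩
  · rintro (_ | q) p hp
    · exact hp
    · obtain ⟨P, h1, h2, h3⟩ := hp
      exact ⟨P, h1, h3⟩
  · rintro p ⟨P, h1, h2⟩ a b hab
    rw [h2 a, h2 b]
    ext q
    constructor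
    · rintro ⟨h3, h4⟩
      exact ⟨⟨h3, fun v i hi => hab (h4 v i hi)⟩, h4⟩
    · rintro ⟨⟨h3, h5⟩, h4⟩
      exact ⟨h3, h4⟩

/-- the main theorem -/
theorem asm_main (hFAM : T_FAM) (hCNF : T_CNF) (hJZ : T_JZ) (hSWI : T_SWI) (hNXT : T_NXT)
    (hCYC : T_CYC) (hOLK : T_OLK) (hLIM : T_LIM) (hRED : T_RED) (hOLS : T_OLS)
    (τ σ : Sig) (N : ℕ) (F : Set (Str τ (Fin N))) (Al : Fin σ.m → Fin τ.m → Prop) (A : Type)
    (𝔸 : Str σ A) (hAc : Countable A) (hAn : Nonempty A) (hol : Oligo 𝔸) (hF : Hyp τ N F)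
    (hT : Tpl F Al 𝔸) (hFr : Frc F Al) :
    PPConstructsK3 𝔸 ∨ (¬ PPConstructsK3 (tmG F Al) ∧
      N793a5b8e.ManyOneReducible (CSP 𝔸) (CSP (tmG F Al))) := by
  by_cases hK : PPConstructsK3 𝔸
  · exact Or.inl hK
  · refine Or.inr ⟨hOLS _ _ _ (hLIM τ σ N F Al hF fun k hk => ?_), hRED τ σ N F Al A 𝔸 hF hT⟩
    have := finite_ty τ N (Fin k)
    exact asm_noi hJZ hSWI hNXT hCYC hOLK _ _ N k _ none _ (bas_RR F Al k) fun I =>
      hFAM τ σ N F Al hF k hk I fun a₀ ha₀ =>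
        hCNF τ σ N F Al A 𝔸 hAc hAn hol hK hF hT hFr k hk I a₀ ha₀

/-- the final theorem -/
theorem asm_final
    (hmain : ∀ (τ σ : Sig) (N : ℕ) (F : Set (Str τ (Fin N))) (Al : Fin σ.m → Fin τ.m → Prop)
      (A : Type) (𝔸 : Str σ A), Countable A → Nonempty A → Oligo 𝔸 → Hyp τ N F → Tpl F Al 𝔸 →
      Frc F Al → PPConstructsK3 𝔸 ∨ (¬ PPConstructsK3 (tmG F Al) ∧
        N793a5b8e.ManyOneReducible (CSP 𝔸) (CSP (tmG F Al))))
    (hPAD : T_PAD) (hPRE : T_PRE)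
    (τ σ : Sig) (Al : Fin σ.m → Fin τ.m → Prop) (L : List (Σ n : ℕ, Str τ (Fin n))) (A : Type)
    (𝔸 : Str σ A) (hAc : Countable A) (hAn : Nonempty A) (hol : Oligo 𝔸)
    (har : ∀ l, 1 ≤ τ.ar l) (hcon : ∀ D ∈ L, Connected D.2)
    (hT : ∀ (n : ℕ) (𝕏 : Str σ (Fin n)), (∃ f, IsHom 𝕏 𝔸 f) ↔
      ∃ M : Str τ (Fin n), Avoids L M ∧ Cols Al M 𝕏)
    (hpre : ∀ c : Fin τ.m, ∃ l : Fin σ.m, τ.ar c = σ.ar l ∧ ∀ c', Al l c' ↔ c' = c) :
    PPConstructsK3 𝔸 ∨ ∃ (ρ : Sig) (T : Type) (_ : Finite T) (𝕋 : Str ρ T),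
      ¬ PPConstructsK3 𝕋 ∧ N793a5b8e.ManyOneReducible (CSP 𝔸) (CSP 𝕋) := by
  obtain ⟨N, F, hF, hval, hT'⟩ := hPAD τ σ Al L A 𝔸 hAn har hcon hT
  rcases hmain τ σ N F Al A 𝔸 hAc hAn hol hF hT' (hPRE τ σ N F Al hpre) with h | ⟨h1, h2⟩
  · exact Or.inl h
  · refine Or.inr ⟨_, _, ?_, _, h1, h2⟩
    have : ∀ j : Fin N, Finite (Ty τ N (Fin (j + 1))) := fun j => finite_ty τ N _
    infer_instance

end Pool.Agent.H53.GM
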