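import Pool.Agent.H53.GM.Targets2
import Pool.Agent.H53.GM.Asm

/-!
# Forbidden coloured patterns: assembly, part 2
-/

set_option autoImplicit false
set_option linter.unusedVariables false

namespace Pool.Agent.H53.GM

open Pool.Agent.H68.BP Pool.Agent.H58.SF Pool.Agent.H53.GC Pool.Agent.H53.GR
open Classical

/-- the reduction is correct -/
theorem asm_re1 (hA : T_REA) (hB : T_REB) : T_RE1 := by
  intro τ σ N F Al A 𝔸 hF hT n 𝕏
  rw [hT n 𝕏]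
  constructor
  · rintro ⟨M, h1, h2⟩
    exact hA τ σ N F Al hF n 𝕏 M h1 h2
  · rintro ⟨q, hq⟩
    exact hB τ σ N F Al hF n 𝕏 q hq

/-- the families -/
theorem asm_fam (hFVL : T_FVL) (hFAC : T_FAC) : T_FAM := by
  intro τ σ N F Al hF k hk I h
  have h' : ∀ a₀ : Ty τ N (Fin k), ∃ ν : Finset (Fin k × Rg (N + 1)) → Kd τ N k → Ty τ N (Fin k),
      (∃ P, Mx F P ∧ rse I P = a₀) →
      ∀ (r : Fin 3) (lb : Fin k → Rg (N + 1)) (p : Fin 6 → Ty τ N (Fin k)),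
          Cfg F I a₀ r lb p → ∃ P, Mx F P ∧
          (∀ e : Finset (Fin k), Disjoint e I → e.card ≤ N →
            rse (e ∪ I) P = ν (pts lb e) (kd I a₀ r lb p e)) ∧
          (∀ (S : Finset (Fin k)) (P' : Ty τ N (Fin k)), S.card ≤ N → Mx F P' →
            (∀ c, rse S (p c) = rse S P') → rse S P = rse S P') ∧
          ∀ (l : Fin σ.m) (z : Fin (σ.ar l) → Fin k), (∀ c, hasl Al l z (p c)) →
            hasl Al l z P := by
    intro a₀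
    by_cases ha : ∃ P, Mx F P ∧ rse I P = a₀
    · obtain ⟨ν, hν⟩ := h a₀ ha
      exact ⟨ν, fun _ => hν⟩
    · exact ⟨fun _ _ => ∅, fun h => absurd h ha⟩
  choose νf hνf using h'
  exact hFAC τ σ N F Al hF k hk I νf (hFVL τ σ N F Al hF k hk I νf hνf)

/-- the values of the labels -/
theorem asm_cnf (hAx : ∀ (τ : Sig) (N k : ℕ) (F : Set (Str τ (Fin N))) (I : Finset (Fin k)),
      Hyp τ N F → Axs (bC F I) N (Gd0 F I))
    (hRAM : T_RAM) (hAXG : T_AXG) (hCSS : T_CSS) (hCSG : T_CSG) (hKKS : T_KKS) (hKKG : T_KKG)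
    (hCOL : T_COL) (hKAP : T_KAP) (hPWG : T_PWG) (hFRC : T_FRC) (hREL : T_REL) (hOUT : T_OUT)
    (hCNI : T_CNI) (hLBK : T_LBK) (hCNE : T_CNE) : T_CNF := by
  intro τ σ N F Al A 𝔸 hAc hAn hol hK3 hF hT hFr k hk I a₀ ha₀
  have hfty := finite_ty τ N (Fin k)
  have hfkd := finite_kd τ N k
  obtain ⟨𝔸', hv, hc⟩ := hCOL τ σ N F Al A 𝔸 hT
  obtain ⟨K, hK1, hK2, hK4⟩ := hKAP τ N F A 𝔸' hF hv k hk
  have hax := hAx τ N k F I hF
  have haxg := hAXG τ N k (N + 1) F I a₀ hF ha₀ hax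
  have h1L : 1 ≤ N + 1 := by omega
  obtain ⟨hcs, hcs0⟩ := hCSS τ N k (N + 1) F I a₀ hF h1L ha₀
  have hcg := hCSG τ N k (N + 1) F I a₀ hF h1L ha₀ hax
  -- gadgets
  have hgad : ∀ P : Ty τ N (Fin k), ∃ (n : ℕ) (D : Str σ (Fin n)) (d : Fin k → Fin n),
      Mx F P → Gad F Al P D d := by
    intro P
    by_cases hP : Mx F P
    · obtain ⟨n, D, d, h⟩ := hFRC τ σ N k F Al hF hFr P hP
      exact ⟨n, D, d, fun _ => h⟩
    · exact ⟨k, fun _ _ => True, fun x => x, fun h => absurd h hP⟩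
  choose nP DP dP hGad using hgad
  -- the Ramsey theorem
  have hfin0 : Finite (CfI (N + 1) F I a₀) := by
    unfold CfI
    have : Finite (Fin 3 × (Fin k → Rg (N + 1)) × (Fin 6 → Ty τ N (Fin k))) := inferInstance
    infer_instance
  have hne0 : Nonempty (CfI (N + 1) F I a₀ × Fin k) := by
    obtain ⟨P, hP1, hP2⟩ := ha₀
    refine ⟨⟨⟨(0, fun _ => none, fun _ => P), ?_⟩, ⟨0, hk⟩⟩⟩
    refine ⟨fun _ => ⟨hP1, hP2⟩, fun _ _ => trivial, fun _ _ _ _ => ?_, Or.inl fun _ _ => rfl⟩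
    refine ⟨by simp, by simp, ?_⟩
    intro q q' h
    cases h
  obtain ⟨W, hW, E, hE1, hE2, hE3⟩ := hRAM (Fin k × Rg (N + 1)) (Kd τ N k)
    (gC (N + 1) F I a₀) N (GdG F I) haxg (CfI (N + 1) F I a₀ × Fin k) (Ty τ N (Fin k))
    (cS (N + 1) F I a₀) (fun _ => a₀, fun _ => a₀) hcs hcg hcs0
  have hKK := hKKG τ N k (N + 1) F I a₀ W E hF (by omega) ha₀ hE1 hE2 hax
  have hKKs := hKKS τ N k (N + 1) F I a₀ W E h1L ha₀ hE1
  -- the realization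
  obtain ⟨f, a, hfa⟩ := hREL τ σ N k F Al A 𝔸 hF hT nP DP dP hGad I (W × Fin 6) (KK E) hKKs hKK
  -- the function on the sixth power
  have hfinB : Finite (BB W τ N k nP) := by
    unfold BB
    have : Finite (Finset (Fin k)) := inferInstance
    have : Finite (Finset W) := inferInstance
    infer_instance
  have hneB : Nonempty (BB W τ N k nP) := ⟨Sum.inl (Sum.inr ⟨0, hk⟩)⟩
  obtain ⟨h, hh1, hh2⟩ := hPWG σ A 𝔸 hAc hAn hol hK3 (BB W τ N k nP) k hk (Ty τ N (Fin k)) K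
  refine hCNE τ σ N k F Al A hF hk I a₀ ha₀ K hK1 hK2 W E f a h hE1 hE3
    (hCNI τ N k (N + 1) F I a₀ A W _ E f a h h1L hE1 hh2)
    (hLBK τ N k (N + 1) F I a₀) ?_
  intro r
  obtain ⟨x, hx1, hx2⟩ := hOUT τ σ N k F Al A 𝔸 𝔸' hF hk hv hc K hK1 hK2 hK4 nP DP dP hGad I
    (W × Fin 6) W (KK E) f a hKKs hfa h hh1 (fun w => (E.pt w).1)
    (fun c w => (w, pos (E.pt w).2 r c)) (fun c w => rfl)
  refine ⟨x, hx1, fun g t hi hg α h1 h2 => hx2 g t hi (fun c => ?_) α h1 h2⟩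
  have key : ∀ i₁ i₂ : DecidableEq (W × Fin 6),
      @Finset.image W (W × Fin 6) i₁ (fun w => (w, pos (E.pt w).2 r c)) g =
        @Finset.image W (W × Fin 6) i₂ (fun w => (w, pos (E.pt w).2 r c)) g := by
    intro i₁ i₂
    rw [Subsingleton.elim i₁ i₂]
  have h3 := hg c
  rw [key _ (fun a b => Classical.propDecidable (a = b))] at h3 ⊢
  exact h3

/-- the main theorem, from the rows -/
theorem asm_all (hB1 : T_B1) (hB2 : T_B2) (hB3 : T_B3) (hRAM : T_RAM) (hAXG : T_AXG)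
    (hCSS : T_CSS) (hCSG : T_CSG) (hKKS : T_KKS) (hKKG : T_KKG)
    (hCOL : T_COL) (hKAP : T_KAP) (hPWG : T_PWG) (hFRC : T_FRC) (hREL : T_REL) (hOUT : T_OUT)
    (hCNI : T_CNI) (hLBK : T_LBK) (hCNE : T_CNE) (hFVL : T_FVL) (hFAC : T_FAC)
    (hJZ : T_JZ) (hSWI : T_SWI) (hNXT : T_NXT)
    (hCYC : T_CYC) (hOLK : T_OLK) (hLIM : T_LIM) (hRED : T_RED) (hOLS : T_OLS)
    (τ σ : Sig) (N : ℕ) (F : Set (Str τ (Fin N))) (Al : Fin σ.m → Fin τ.m → Prop) (A : Type)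
    (𝔸 : Str σ A) (hAc : Countable A) (hAn : Nonempty A) (hol : Oligo 𝔸) (hF : Hyp τ N F)
    (hT : Tpl F Al 𝔸) (hFr : Frc F Al) :
    PPConstructsK3 𝔸 ∨ (¬ PPConstructsK3 (tmG F Al) ∧
      N793a5b8e.ManyOneReducible (CSP 𝔸) (CSP (tmG F Al))) :=
  asm_main (asm_fam hFVL hFAC)
    (asm_cnf (asm_ax0 hB1 hB2 hB3) hRAM hAXG hCSS hCSG hKKS hKKG hCOL hKAP hPWG hFRC hREL hOUT
      hCNI hLBK hCNE) hJZ hSWI hNXT hCYC hOLK hLIM hRED hOLS τ σ N F Al A 𝔸 hAc hAn hol hF hT hFr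

end Pool.Agent.H53.GM
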