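import Pool.Agent.H53.GM.Targets2
import Pool.Agent.H53.GM.Asm2

/-!
# Forbidden coloured patterns: patterns which are not connected
-/

set_option autoImplicit false
set_option linter.unusedVariables false

namespace Pool.Agent.H53.GM

open Pool.Agent.H68.BP Pool.Agent.H58.SF Pool.Agent.H53.GC Pool.Agent.H53.GR
open Classical

/-- components of a finite structure -/
def T_CMP : Prop :=
  ∀ (τ : Sig) (n : ℕ) (D : Str τ (Fin n)), (∀ l, 1 ≤ τ.ar l) →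
    ∃ L : List (Σ n : ℕ, Str τ (Fin n)), (∀ C ∈ L, Connected C.2) ∧
      ∀ (W : Type) (M : Str τ W), (∃ f : Fin n → W, IsHom D M f) ↔
        ∀ C ∈ L, ∃ f : Fin C.1 → W, IsHom C.2 M f

/-- the forbidden structures can be assumed to be connected -/
def T_CON : Prop :=
  ∀ (τ σ : Sig) (Al : Fin σ.m → Fin τ.m → Prop) (L : List (Σ n : ℕ, Str τ (Fin n))) (A : Type)
    (𝔸 : Str σ A), (∀ l, 1 ≤ τ.ar l) →
    (∀ (n : ℕ) (𝕏 : Str σ (Fin n)), (∃ f, IsHom 𝕏 𝔸 f) ↔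
      ∃ M : Str τ (Fin n), Avoids L M ∧ Cols Al M 𝕏) →
    ∃ L' : List (Σ n : ℕ, Str τ (Fin n)), (∀ D ∈ L', Connected D.2) ∧
      ∀ (n : ℕ) (𝕏 : Str σ (Fin n)), (∃ f, IsHom 𝕏 𝔸 f) ↔
        ∃ M : Str τ (Fin n), Avoids L' M ∧ Cols Al M 𝕏

/-- the final theorem -/
theorem asm_fin
    (hmain : ∀ (τ σ : Sig) (N : ℕ) (F : Set (Str τ (Fin N))) (Al : Fin σ.m → Fin τ.m → Prop)
      (A : Type) (𝔸 : Str σ A), Countable A → Nonempty A → Oligo 𝔸 → Hyp τ N F → Tpl F Al 𝔸 →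
      Frc F Al → PPConstructsK3 𝔸 ∨ (¬ PPConstructsK3 (tmG F Al) ∧
        N793a5b8e.ManyOneReducible (CSP 𝔸) (CSP (tmG F Al))))
    (hPAD : T_PAD) (hPRE : T_PRE) (hCON : T_CON)
    (τ σ : Sig) (Al : Fin σ.m → Fin τ.m → Prop) (L : List (Σ n : ℕ, Str τ (Fin n))) (A : Type)
    (𝔸 : Str σ A) (hAc : Countable A) (hAn : Nonempty A) (hol : Oligo 𝔸)
    (har : ∀ l, 1 ≤ τ.ar l)
    (hT : ∀ (n : ℕ) (𝕏 : Str σ (Fin n)), (∃ f, IsHom 𝕏 𝔸 f) ↔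
      ∃ M : Str τ (Fin n), Avoids L M ∧ Cols Al M 𝕏)
    (hpre : ∀ c : Fin τ.m, ∃ l : Fin σ.m, τ.ar c = σ.ar l ∧ ∀ c', Al l c' ↔ c' = c) :
    PPConstructsK3 𝔸 ∨ ∃ (ρ : Sig) (T : Type) (_ : Finite T) (𝕋 : Str ρ T),
      ¬ PPConstructsK3 𝕋 ∧ N793a5b8e.ManyOneReducible (CSP 𝔸) (CSP 𝕋) := by
  obtain ⟨L', h1, h2⟩ := hCON τ σ Al L A 𝔸 har hT
  exact asm_final hmain hPAD hPRE τ σ Al L' A 𝔸 hAc hAn hol har h1 h2 hpre

end Pool.Agent.H53.GM
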