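import Pool.Agent.H53.GM.Defs

/-!
# Forbidden coloured patterns: targets
-/

set_option autoImplicit false
set_option linter.unusedVariables false

namespace Pool.Agent.H53.GM

open Pool.Agent.H68.BP Pool.Agent.H58.SF Pool.Agent.H53.GC Pool.Agent.H53.GR
open Classical

/-! ### 1. Types -/

/-- atoms are pieces -/
def T_ATM : Prop :=
  ∀ (τ : Sig) (N : ℕ) (F : Set (Str τ (Fin N))) (W J : Type) (M : Str τ W) (a : J → W)
    (c : Fin τ.m) (z : Fin (τ.ar c) → J), Hyp τ N F →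
    (atm N c z ∈ tp N M a ↔ M c (fun i => a (z i)))

/-- the number of types is finite; monotonicity; restrictions -/
def T_TPB : Prop :=
  ∀ (τ : Sig) (N : ℕ) (W W' J J' : Type) (M : Str τ W) (M' : Str τ W') (a : J → W),
    (∀ f, IsHom M M' f → tp N M a ⊆ tp N M' (fun j => f (a j))) ∧
    (∀ u : J' → J, tp N M (fun j => a (u j)) = rs u (tp N M a)) ∧
    (∀ (b : J → W) (e : Finset J), (∀ i ∈ e, a i = b i) → rse e (tp N M a) = rse e (tp N M b)) ∧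
    ∀ (b : J → W') (e : Finset J), rse e (tp N M a) ⊆ rse e (tp N M' b) ↔
      tp N M (fun j : e => a j.1) ⊆ tp N M' (fun j : e => b j.1)

/-- blow-up -/
def T_BLW : Prop :=
  ∀ (τ : Sig) (N : ℕ) (F : Set (Str τ (Fin N))) (W J : Type) (M : Str τ W), Nonempty J →
    (Val F M → Val F (blw M J)) ∧
    ∀ (J' : Type) (b : J' → W × J), tp N (blw M J) b = tp N M (fun j => (b j).1)

/-- the gluing lemma -/
def T_GLU : Prop :=
  ∀ (τ : Sig) (N : ℕ) (W W' I : Type) (Mi : I → Str τ W) (B : I → Set W) (K : Set W)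
    (M : Str τ W) (M' : Str τ W') (φ : W → W') (D : Str τ (Fin N)) (f : Fin N → W),
    (∀ i j x, x ∈ B i → x ∈ B j → i ≠ j → x ∈ K) →
    (∀ (l : Fin τ.m) (z : Fin (τ.ar l) → W), M l z → ∃ i, Mi i l z) →
    (∀ i (l : Fin τ.m) (z : Fin (τ.ar l) → W), Mi i l z → ∀ a, z a ∈ B i) →
    IsHom D M f →
    (∀ i, ∃ h : Fin N → W', IsHom (sub D f (Mi i)) M' h ∧
      ∀ v, f v ∈ K → f v ∈ B i → h v = φ (f v)) →
    ∃ h : Fin N → W', IsHom D M' h ∧ ∀ v, f v ∈ K → h v = φ (f v)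

/-- the parts of a piece are pieces -/
def T_GL2 : Prop :=
  ∀ (τ : Sig) (N : ℕ) (W I J J' : Type) (Mi : I → Str τ W) (B : I → Set W) (K : Set W)
    (M : Str τ W) (D : Str τ (Fin N)) (f : Fin N → W) (ρ : Fin N → Option J),
    (∀ l, 1 ≤ τ.ar l) →
    (∀ i j x, x ∈ B i → x ∈ B j → i ≠ j → x ∈ K) →
    (∀ (l : Fin τ.m) (z : Fin (τ.ar l) → W), M l z → ∃ i, Mi i l z) →
    (∀ i (l : Fin τ.m) (z : Fin (τ.ar l) → W), Mi i l z → ∀ a, z a ∈ B i) →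
    IsHom D M f → RC D ρ → (∀ v, ρ v ≠ none → f v ∈ K) →
    ∀ (i : I) (ρ' : Fin N → Option J'), (∀ v, f v ∈ K → f v ∈ B i → ρ' v ≠ none) →
      RC (sub D f (Mi i)) ρ'

/-- connected structures -/
def T_GL3 : Prop :=
  ∀ (τ : Sig) (N : ℕ) (W I : Type) (Mi : I → Str τ W) (B : I → Set W) (K : Set W)
    (M : Str τ W) (D : Str τ (Fin N)) (f : Fin N → W),
    (∀ l, 1 ≤ τ.ar l) →
    (∀ i j x, x ∈ B i → x ∈ B j → i ≠ j → x ∈ K) →
    (∀ (l : Fin τ.m) (z : Fin (τ.ar l) → W), M l z → ∃ i, Mi i l z) →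
    (∀ i (l : Fin τ.m) (z : Fin (τ.ar l) → W), Mi i l z → ∀ a, z a ∈ B i) →
    IsHom D M f → Conn D → HasAt D Set.univ →
    RC D (fun v => if f v ∈ K then some () else none) ∨ ∃ i, IsHom D (Mi i) f

/-- amalgamation -/
def T_AMG : Prop :=
  ∀ (τ : Sig) (N : ℕ) (F : Set (Str τ (Fin N))) (W₁ W₂ J : Type) (M₁ : Str τ W₁) (M₂ : Str τ W₂)
    (a : J → W₁) (b : J → W₂), Hyp τ N F → Function.Injective a → Function.Injective b →
    Val F M₁ → Val F M₂ → tp N M₁ a ⊆ tp N M₂ b →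
    ∃ (P : Str τ (W₁ ⊕ W₂)) (e : W₁ → W₁ ⊕ W₂), Function.Injective e ∧ IsHom M₁ P e ∧
      IsHom M₂ P Sum.inr ∧ (∀ j, e (a j) = Sum.inr (b j)) ∧ Val F P ∧
      (∀ (J' : Type) (c : J' → W₂), tp N P (fun j => Sum.inr (c j)) = tp N M₂ c) ∧
      (tp N M₁ a = tp N M₂ b →
        ∀ (J' : Type) (c : J' → W₁), tp N P (fun j => e (c j)) = tp N M₁ c)

/-- maximal types exist -/
def T_MXE : Prop :=
  ∀ (τ : Sig) (N : ℕ) (F : Set (Str τ (Fin N))) (J : Type) [Finite J] (t : Ty τ N J), Rl F t →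
    ∃ t', Mx F t' ∧ t ⊆ t'

/-- occurring types occur at injective tuples -/
def T_RLI : Prop :=
  ∀ (τ : Sig) (N : ℕ) (F : Set (Str τ (Fin N))) (J : Type) [Finite J] (t : Ty τ N J), Rl F t →
    ∃ (W : Type) (_ : Finite W) (M : Str τ W) (a : J → W), Function.Injective a ∧ Val F M ∧
      tp N M a = t

/-- restrictions of maximal types -/
def T_MXR : Prop :=
  ∀ (τ : Sig) (N : ℕ) (F : Set (Str τ (Fin N))) (J J' : Type) [Finite J] [Finite J']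
    (u : J' → J) (t : Ty τ N J), Hyp τ N F → Function.Injective u → Mx F t → Mx F (rs u t)

/-- extensions of maximal types -/
def T_EXT : Prop :=
  ∀ (τ : Sig) (N : ℕ) (F : Set (Str τ (Fin N))) (J J' : Type) [Finite J] [Finite J']
    (u : J' → J) (t : Ty τ N J'), Hyp τ N F → Function.Injective u → Nonempty J' → Mx F t →
    ∃ P : Ty τ N J, Mx F P ∧ rs u P = t

/-- restrictions of maximal types are maximal -/
def T_MXS : Prop :=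
  ∀ (τ : Sig) (N : ℕ) (F : Set (Str τ (Fin N))) (J W : Type) [Finite J] [Finite W]
    (P : Ty τ N J) (M : Str τ W) (b : J → W) (e : Finset J), Hyp τ N F → Mx F P → Val F M →
    rse e P ⊆ rse e (tp N M b) → rse e (tp N M b) = rse e P

/-! ### 2. Systems of types -/

def T_B1 : Prop :=
  ∀ (τ : Sig) (N k : ℕ) (F : Set (Str τ (Fin N))) (I : Finset (Fin k)) (W W' : Type)
    (C : Sy (Fin k) (Ty τ N (Fin k)) W) (C' : Sy (Fin k) (Ty τ N (Fin k)) W') (f : W → W'),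
    Hm C C' f → Gd0 F I W' C' → Gd0 F I W C

def T_B2 : Prop :=
  ∀ (τ : Sig) (N k : ℕ) (F : Set (Str τ (Fin N))) (I : Finset (Fin k)), Hyp τ N F →
    ∀ (W : Type) [Finite W] (C : Sy (Fin k) (Ty τ N (Fin k)) W), IsSys (bC F I) C →
    (∀ U : Finset W, U.card ≤ N → Gd0 F I W (C.res (U : Set W))) → Gd0 F I W C

def T_B3 : Prop :=
  ∀ (τ : Sig) (N k : ℕ) (F : Set (Str τ (Fin N))) (I : Finset (Fin k)), Hyp τ N F →
    ∀ (W : Type) [Finite W] (C : Sy (Fin k) (Ty τ N (Fin k)) W) (U₁ U₂ : Set W) (g₀ : Finset W)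
    (κ₀ : Ty τ N (Fin k)), IsSys (bC F I) C → C.gd g₀ κ₀ → (∀ x, x ∈ g₀ ↔ x ∈ U₁ ∧ x ∈ U₂) →
    (∀ g κ, C.gd g κ → (∀ x ∈ g, x ∈ U₁) ∨ ∀ x ∈ g, x ∈ U₂) →
    Gd0 F I W (C.res U₁) → Gd0 F I W (C.res U₂) → Gd0 F I W C

/-! ### 3. The abstract Ramsey theorem -/

/-- disjoint unions -/
def T_DSU : Prop :=
  ∀ (Q 𝒦 : Type) (K : Cls Q 𝒦) (N : ℕ) (G : (W : Type) → Sy Q 𝒦 W → Prop), Axs K N G →
    ∀ (R W : Type) [Finite R] [Nonempty R] [Finite W] (C : Sy Q 𝒦 (R × W)) (κ₀ : 𝒦),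
    IsSys K C → C.gd ∅ κ₀ → (∀ g κ, C.gd g κ → ∃ r, ∀ x ∈ g, x.1 = r) →
    (∀ r, G (R × W) (C.res {x | x.1 = r})) → G (R × W) C

/-- the partite lemma -/
def T_PL : Prop :=
  ∀ (Q 𝒦 : Type) (K : Cls Q 𝒦) (P Y : Type) [Finite P] [Finite Y] (C : Sy Q 𝒦 P)
    (α : Finset Q) (κ₀ : 𝒦), IsSys K C →
    ∃ (P' : Type) (_ : Finite P') (C' : Sy Q 𝒦 P'), IsSys K C' ∧
      (∀ G κ, C'.gd G κ → ∃ g, C.gd g κ ∧ g.image C.pt = G.image C'.pt) ∧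
      (∀ χ : Finset P' → Y, ∃ φ : P → P', Hm C C' φ ∧
        ∀ g g', C.gd g κ₀ → C.gd g' κ₀ → g.image C.pt = α → g'.image C.pt = α →
          χ (g.image φ) = χ (g'.image φ)) ∧
      Spl C C' α

/-- local goodness in one step -/
def T_PLG : Prop :=
  ∀ (Q 𝒦 : Type) (K : Cls Q 𝒦) (N : ℕ) (G : (W : Type) → Sy Q 𝒦 W → Prop), Axs K N G →
    ∀ (WB P P' : Type) [Finite WB] [Finite P] [Finite P'] (B : Sy Q 𝒦 WB) (m : ℕ)
      (C : Sy WB 𝒦 P) (C' : Sy WB 𝒦 P') (α : Finset WB) (κ₀ : 𝒦), IsSys K B → LG G m B →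
      B.gd α κ₀ → IsSys (K.ov B) C → LG G (m + 1) (C.fg B) → IsSys (K.ov B) C' →
      Spl C C' α → LG G (m + 1) (C'.fg B)

/-- iteration over a list of faces -/
def T_ITR : Prop :=
  ∀ (Q 𝒦 : Type) (K : Cls Q 𝒦) (N : ℕ) (G : (W : Type) → Sy Q 𝒦 W → Prop), Axs K N G →
    ∀ (WB Y : Type) [Finite WB] [Finite Y] (B : Sy Q 𝒦 WB) (m : ℕ), IsSys K B → LG G m B →
      ∀ ls : List (Finset WB × 𝒦), (∀ p ∈ ls, B.gd p.1 p.2) →
      ∀ (P : Type) [Finite P] (C : Sy WB 𝒦 P), IsSys (K.ov B) C → LG G (m + 1) (C.fg B) →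
      ∃ (P' : Type) (_ : Finite P') (C' : Sy WB 𝒦 P'), IsSys (K.ov B) C' ∧
        LG G (m + 1) (C'.fg B) ∧
        ∀ χ : Finset P' → Y, ∃ φ : P → P', Hm C C' φ ∧
          ∀ p ∈ ls, ∀ g g', C.gd g p.2 → C.gd g' p.2 → g.image C.pt = p.1 →
            g'.image C.pt = p.1 → χ (g.image φ) = χ (g'.image φ)

/-- the Ramsey theorem without goodness -/
def T_RM0 : Prop :=
  ∀ (Q 𝒦 : Type) [Finite Q] [Finite 𝒦] (K : Cls Q 𝒦) (W₀ Y : Type) [Finite W₀] [Finite Y]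
    (C₀ : Sy Q 𝒦 W₀), IsSys K C₀ →
    ∃ (W : Type) (_ : Finite W) (E : Sy Q 𝒦 W), IsSys K E ∧
      (∀ G κ, E.gd G κ → ∃ g, C₀.gd g κ ∧ g.image C₀.pt = G.image E.pt) ∧ Ram C₀ Y E

/-- one step of the iterated partite construction -/
def T_STP : Prop :=
  ∀ (Q 𝒦 : Type) [Finite Q] [Finite 𝒦] (K : Cls Q 𝒦) (N : ℕ)
    (G : (W : Type) → Sy Q 𝒦 W → Prop), Axs K N G →
    ∀ (W₀ Y WB : Type) [Finite W₀] [Finite Y] [Finite WB] (C₀ : Sy Q 𝒦 W₀) (κ₀ : 𝒦)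
      (B : Sy Q 𝒦 WB) (m : ℕ), IsSys K C₀ → G W₀ C₀ → C₀.gd ∅ κ₀ → IsSys K B → LG G m B →
      Ram C₀ Y B →
      ∃ (W : Type) (_ : Finite W) (E : Sy Q 𝒦 W), IsSys K E ∧ LG G (m + 1) E ∧ Ram C₀ Y E

/-- the Ramsey theorem -/
def T_RAM : Prop :=
  ∀ (Q 𝒦 : Type) [Finite Q] [Finite 𝒦] (K : Cls Q 𝒦) (N : ℕ)
    (G : (W : Type) → Sy Q 𝒦 W → Prop), Axs K N G →
    ∀ (W₀ Y : Type) [Finite W₀] [Nonempty W₀] [Finite Y] (C₀ : Sy Q 𝒦 W₀) (κ₀ : 𝒦),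
      IsSys K C₀ → G W₀ C₀ → C₀.gd ∅ κ₀ →
      ∃ (W : Type) (_ : Finite W) (E : Sy Q 𝒦 W), IsSys K E ∧ G W E ∧ Ram C₀ Y E

/-! ### 4. Graded systems -/

/-- the six and the two systems are systems of types -/
def T_DZS : Prop :=
  ∀ (τ : Sig) (N k L : ℕ) (F : Set (Str τ (Fin N))) (I : Finset (Fin k)) (a₀ : Ty τ N (Fin k))
    (W : Type) (C : Sy (Fin k × Rg L) (Kd τ N k) W), (∃ P, Mx F P ∧ rse I P = a₀) →
    IsSys (gC L F I a₀) C → (∀ c, IsSys (bC F I) (dz C c)) ∧ ∀ d, IsSys (bC F I) (ds C d)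

/-- goodness of graded systems -/
def T_AXG : Prop :=
  ∀ (τ : Sig) (N k L : ℕ) (F : Set (Str τ (Fin N))) (I : Finset (Fin k)) (a₀ : Ty τ N (Fin k)),
    Hyp τ N F → (∃ P, Mx F P ∧ rse I P = a₀) → Axs (bC F I) N (Gd0 F I) →
    Axs (gC L F I a₀) N (GdG F I)

/-- the system of all configurations -/
def T_CSS : Prop :=
  ∀ (τ : Sig) (N k L : ℕ) (F : Set (Str τ (Fin N))) (I : Finset (Fin k)) (a₀ : Ty τ N (Fin k)),
    Hyp τ N F → 1 ≤ L → (∃ P, Mx F P ∧ rse I P = a₀) → IsSys (gC L F I a₀) (cS L F I a₀) ∧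
      (cS L F I a₀).gd ∅ (fun _ => a₀, fun _ => a₀)

def T_CSG : Prop :=
  ∀ (τ : Sig) (N k L : ℕ) (F : Set (Str τ (Fin N))) (I : Finset (Fin k)) (a₀ : Ty τ N (Fin k)),
    Hyp τ N F → 1 ≤ L → (∃ P, Mx F P ∧ rse I P = a₀) → Axs (bC F I) N (Gd0 F I) →
    GdG F I _ (cS L F I a₀)

/-- the system of the sheets -/
def T_KKS : Prop :=
  ∀ (τ : Sig) (N k L : ℕ) (F : Set (Str τ (Fin N))) (I : Finset (Fin k)) (a₀ : Ty τ N (Fin k))
    (W : Type) [Finite W] (C : Sy (Fin k × Rg L) (Kd τ N k) W), 1 ≤ L →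
    (∃ P, Mx F P ∧ rse I P = a₀) → IsSys (gC L F I a₀) C → IsSys (bC F I) (KK C)

/-- the part of the sheets below the cut -/
def T_KKZ : Prop :=
  ∀ (τ : Sig) (N k L : ℕ) (F : Set (Str τ (Fin N))) (I : Finset (Fin k)) (a₀ : Ty τ N (Fin k))
    (W : Type) [Finite W] (C : Sy (Fin k × Rg L) (Kd τ N k) W), Hyp τ N F → 1 ≤ L →
    (∃ P, Mx F P ∧ rse I P = a₀) → IsSys (gC L F I a₀) C → (∀ c, Gd0 F I W (dz C c)) →
    Axs (bC F I) N (Gd0 F I) → ∀ U : Set (W × Fin 6),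
      (∀ x ∈ U, (C.pt x.1).2 ≠ some none) → Gd0 F I _ ((KK C).res U)

/-- the part of the sheets above the cut -/
def T_KKT : Prop :=
  ∀ (τ : Sig) (N k L : ℕ) (F : Set (Str τ (Fin N))) (I : Finset (Fin k)) (a₀ : Ty τ N (Fin k))
    (W : Type) [Finite W] (C : Sy (Fin k × Rg L) (Kd τ N k) W), Hyp τ N F → 1 ≤ L →
    (∃ P, Mx F P ∧ rse I P = a₀) → IsSys (gC L F I a₀) C → (∀ d, Gd0 F I W (ds C d)) →
    Axs (bC F I) N (Gd0 F I) → ∀ U : Set (W × Fin 6),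
      (∀ x ∈ U, (C.pt x.1).2 ≠ none) → Gd0 F I _ ((KK C).res U)

/-- the system of the sheets is good -/
def T_KKG : Prop :=
  ∀ (τ : Sig) (N k L : ℕ) (F : Set (Str τ (Fin N))) (I : Finset (Fin k)) (a₀ : Ty τ N (Fin k))
    (W : Type) [Finite W] (C : Sy (Fin k × Rg L) (Kd τ N k) W), Hyp τ N F → N + 1 ≤ L →
    (∃ P, Mx F P ∧ rse I P = a₀) → IsSys (gC L F I a₀) C → GdG F I W C →
    Axs (bC F I) N (Gd0 F I) → Gd0 F I _ (KK C)

/-! ### 5. The template -/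

/-- a valid colouring of the template -/
def T_COL : Prop :=
  ∀ (τ σ : Sig) (N : ℕ) (F : Set (Str τ (Fin N))) (Al : Fin σ.m → Fin τ.m → Prop) (A : Type)
    (𝔸 : Str σ A), Tpl F Al 𝔸 → ∃ 𝔸' : Str τ A, Val F 𝔸' ∧ Cols Al 𝔸' 𝔸

/-- maximal types of tuples of the template -/
def T_KAP : Prop :=
  ∀ (τ : Sig) (N : ℕ) (F : Set (Str τ (Fin N))) (A : Type) (𝔸' : Str τ A), Hyp τ N F →
    Val F 𝔸' → ∀ k : ℕ, 1 ≤ k → ∃ K : (Fin k → A) → Ty τ N (Fin k), (∀ a, Mx F (K a)) ∧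
      (∀ (e : Finset (Fin k)) (a a' : Fin k → A), (∀ v ∈ e, a v = a' v) →
        rse e (K a) = rse e (K a')) ∧ ∀ a, tp N 𝔸' a ⊆ K a

/-- the map on the sixth power -/
def T_PWG : Prop :=
  ∀ (σ : Sig) (A : Type) (𝔸 : Str σ A), Countable A → Nonempty A → Oligo 𝔸 →
    ¬ PPConstructsK3 𝔸 → ∀ (B : Type) [Finite B] [Nonempty B] (k : ℕ), 1 ≤ k →
    ∀ (Y : Type) [Finite Y] (K : (Fin k → A) → Y), ∃ h : (Fin 6 → Fin k → A) → Y,
      (∀ (𝕎 : Str σ B) (u : Fin 6 → B → A), (∀ c, IsHom 𝕎 𝔸 (u c)) →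
        ∃ x : B → A, IsHom 𝕎 𝔸 x ∧
          ∀ α : Fin k → B, K (fun v => x (α v)) = h (fun c v => u c (α v))) ∧
      ∀ (r : Fin 3) (P P' : Fin k → A), h (pat r P P') = h (pat 0 P P')

/-- gadgets -/
def T_FRC : Prop :=
  ∀ (τ σ : Sig) (N k : ℕ) (F : Set (Str τ (Fin N))) (Al : Fin σ.m → Fin τ.m → Prop), Hyp τ N F →
    Frc F Al → ∀ P : Ty τ N (Fin k), Mx F P →
    ∃ (n : ℕ) (D : Str σ (Fin n)) (d : Fin k → Fin n), Gad F Al P D d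

/-- simultaneous amalgamation -/
def T_GAD : Prop :=
  ∀ (τ : Sig) (N k : ℕ) (F : Set (Str τ (Fin N))), Hyp τ N F → ∀ (R : Type) [Finite R]
    (W : Type) [Finite W] (M : Str τ W) (WR : R → Type) (_ : ∀ r, Finite (WR r))
    (MR : (r : R) → Str τ (WR r)) (s : R → Finset (Fin k)) (b : R → Fin k → W)
    (d : (r : R) → Fin k → WR r), Val F M → (∀ r, Val F (MR r)) →
    (∀ r, Function.Injective (d r)) → (∀ r, Set.InjOn (b r) (s r : Set (Fin k))) →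
    (∀ r, rse (s r) (tp N M (b r)) = rse (s r) (tp N (MR r) (d r))) →
    ∃ (W' : Type) (_ : Finite W') (M' : Str τ W') (j : W → W'), Val F M' ∧
      Function.Injective j ∧ IsHom M M' j ∧
      ∀ r, ∃ g : WR r → W', IsHom (MR r) M' g ∧ ∀ v ∈ s r, g (d r v) = j (b r v)

/-- realization of good systems in the template -/
def T_REL : Prop :=
  ∀ (τ σ : Sig) (N k : ℕ) (F : Set (Str τ (Fin N))) (Al : Fin σ.m → Fin τ.m → Prop) (A : Type)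
    (𝔸 : Str σ A), Hyp τ N F → Tpl F Al 𝔸 →
    ∀ (nP : Ty τ N (Fin k) → ℕ) (DP : (P : Ty τ N (Fin k)) → Str σ (Fin (nP P)))
      (dP : (P : Ty τ N (Fin k)) → Fin k → Fin (nP P)),
      (∀ P, Mx F P → Gad F Al P (DP P) (dP P)) →
    ∀ (I : Finset (Fin k)) (V : Type) [Finite V] (C : Sy (Fin k) (Ty τ N (Fin k)) V),
      IsSys (bC F I) C → Gd0 F I V C →
    ∃ (f : V → A) (a : Fin k → A), ∀ G t, C.gd G t → ∀ b : Fin k → A, (∀ v ∈ I, b v = a v) →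
      (∀ x ∈ G, b (C.pt x) = f x) →
      (∀ P s, Mx F P → s ⊆ G.image C.pt ∪ I → rse s P = rse s t →
        ∃ y : Fin (nP P) → A, IsHom (DP P) 𝔸 y ∧ ∀ v ∈ s, y (dP P v) = b v) ∧
      ∀ (l : Fin σ.m) (z : Fin (σ.ar l) → Fin k), (∀ i, z i ∈ G.image C.pt ∪ I) →
        hasl Al l z t → 𝔸 l (fun i => b (z i))

/-- the elements of the instance: vertices, constants and gadgets -/
abbrev BB (W : Type) (τ : Sig) (N k : ℕ) (nP : Ty τ N (Fin k) → ℕ) : Type :=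
  (W ⊕ Fin k) ⊕ ((Finset W × Finset (Fin k)) × (Σ P : Ty τ N (Fin k), Fin (nP P)))

/-- outputs -/
def T_OUT : Prop :=
  ∀ (τ σ : Sig) (N k : ℕ) (F : Set (Str τ (Fin N))) (Al : Fin σ.m → Fin τ.m → Prop) (A : Type)
    (𝔸 : Str σ A) (𝔸' : Str τ A), Hyp τ N F → 1 ≤ k → Val F 𝔸' → Cols Al 𝔸' 𝔸 →
    ∀ (K : (Fin k → A) → Ty τ N (Fin k)), (∀ a, Mx F (K a)) →
      (∀ (e : Finset (Fin k)) (a a' : Fin k → A), (∀ v ∈ e, a v = a' v) →
        rse e (K a) = rse e (K a')) → (∀ a, tp N 𝔸' a ⊆ K a) →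
    ∀ (nP : Ty τ N (Fin k) → ℕ) (DP : (P : Ty τ N (Fin k)) → Str σ (Fin (nP P)))
      (dP : (P : Ty τ N (Fin k)) → Fin k → Fin (nP P)),
      (∀ P, Mx F P → Gad F Al P (DP P) (dP P)) →
    ∀ (I : Finset (Fin k)) (V W : Type) [Finite V] [Finite W]
      (C : Sy (Fin k) (Ty τ N (Fin k)) V) (f : V → A) (a : Fin k → A), IsSys (bC F I) C →
      (∀ G t, C.gd G t → ∀ b : Fin k → A, (∀ v ∈ I, b v = a v) →
        (∀ x ∈ G, b (C.pt x) = f x) →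
        (∀ P s, Mx F P → s ⊆ G.image C.pt ∪ I → rse s P = rse s t →
          ∃ y : Fin (nP P) → A, IsHom (DP P) 𝔸 y ∧ ∀ v ∈ s, y (dP P v) = b v) ∧
        ∀ (l : Fin σ.m) (z : Fin (σ.ar l) → Fin k), (∀ i, z i ∈ G.image C.pt ∪ I) →
          hasl Al l z t → 𝔸 l (fun i => b (z i))) →
    ∀ h : (Fin 6 → Fin k → A) → Ty τ N (Fin k),
      (∀ (𝕎 : Str σ (BB W τ N k nP)) (u : Fin 6 → BB W τ N k nP → A),
        (∀ c, IsHom 𝕎 𝔸 (u c)) → ∃ x : BB W τ N k nP → A, IsHom 𝕎 𝔸 x ∧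
          ∀ α : Fin k → BB W τ N k nP, K (fun v => x (α v)) = h (fun c v => u c (α v))) →
    ∀ (pt : W → Fin k) (s : Fin 6 → W → V), (∀ c w, C.pt (s c w) = pt w) →
    ∃ x : W ⊕ Fin k → A,
      (∀ α : Fin k → W ⊕ Fin k, K (fun v => x (α v)) =
        h (fun c v => Sum.elim (fun w => f (s c w)) a (α v))) ∧
      ∀ (g : Finset W) (t : Fin 6 → Ty τ N (Fin k)), Set.InjOn pt (g : Set W) →
        (∀ c, C.gd (g.image (s c)) (t c)) → ∀ α : Fin k → W ⊕ Fin k,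
        (∀ w ∈ g, α (pt w) = Sum.inl w) → (∀ v ∈ I, α v = Sum.inr v) →
        (∀ (S : Finset (Fin k)) (P : Ty τ N (Fin k)), S ⊆ g.image pt ∪ I → Mx F P →
          (∀ c, rse S (t c) = rse S P) → rse S (K (fun v => x (α v))) = rse S P) ∧
        ∀ (l : Fin σ.m) (z : Fin (σ.ar l) → Fin k), (∀ i, z i ∈ g.image pt ∪ I) →
          (∀ c, hasl Al l z (t c)) → hasl Al l z (K (fun v => x (α v)))

/-- the values of the labels -/
def T_CNF : Prop :=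
  ∀ (τ σ : Sig) (N : ℕ) (F : Set (Str τ (Fin N))) (Al : Fin σ.m → Fin τ.m → Prop) (A : Type)
    (𝔸 : Str σ A), Countable A → Nonempty A → Oligo 𝔸 → ¬ PPConstructsK3 𝔸 → Hyp τ N F →
    Tpl F Al 𝔸 → Frc F Al → ∀ k : ℕ, 1 ≤ k → ∀ (I : Finset (Fin k)) (a₀ : Ty τ N (Fin k)),
    (∃ P, Mx F P ∧ rse I P = a₀) →
    ∃ ν : Finset (Fin k × Rg (N + 1)) → Kd τ N k → Ty τ N (Fin k),
      ∀ (r : Fin 3) (lb : Fin k → Rg (N + 1)) (p : Fin 6 → Ty τ N (Fin k)),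
        Cfg F I a₀ r lb p → ∃ P, Mx F P ∧
        (∀ e : Finset (Fin k), Disjoint e I → e.card ≤ N →
          rse (e ∪ I) P = ν (pts lb e) (kd I a₀ r lb p e)) ∧
        (∀ (S : Finset (Fin k)) (P' : Ty τ N (Fin k)), S.card ≤ N → Mx F P' →
          (∀ c, rse S (p c) = rse S P') → rse S P = rse S P') ∧
        ∀ (l : Fin σ.m) (z : Fin (σ.ar l) → Fin k), (∀ c, hasl Al l z (p c)) →
          hasl Al l z P

/-- the chains of families -/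
def T_FAM : Prop :=
  ∀ (τ σ : Sig) (N : ℕ) (F : Set (Str τ (Fin N))) (Al : Fin σ.m → Fin τ.m → Prop), Hyp τ N F →
    ∀ k : ℕ, 1 ≤ k → ∀ I : Finset (Fin k),
    (∀ a₀ : Ty τ N (Fin k), (∃ P, Mx F P ∧ rse I P = a₀) →
      ∃ ν : Finset (Fin k × Rg (N + 1)) → Kd τ N k → Ty τ N (Fin k),
        ∀ (r : Fin 3) (lb : Fin k → Rg (N + 1)) (p : Fin 6 → Ty τ N (Fin k)),
          Cfg F I a₀ r lb p → ∃ P, Mx F P ∧
          (∀ e : Finset (Fin k), Disjoint e I → e.card ≤ N →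
            rse (e ∪ I) P = ν (pts lb e) (kd I a₀ r lb p e)) ∧
          (∀ (S : Finset (Fin k)) (P' : Ty τ N (Fin k)), S.card ≤ N → Mx F P' →
            (∀ c, rse S (p c) = rse S P') → rse S P = rse S P') ∧
          ∀ (l : Fin σ.m) (z : Fin (σ.ar l) → Fin k), (∀ c, hasl Al l z (p c)) →
            hasl Al l z P) →
    Chn (RR F Al k) none I

/-! ### 6. Algebra -/

/-- a lemma of the kind of the theorem of Graham and Rothschild -/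
def T_GRW : Prop :=
  ∀ (p : ℕ) (Y : Type) [Finite Y], 1 ≤ p → ∃ n : ℕ, 1 ≤ n ∧
    ∀ χ : (Fin n → Fin 2) → Fin n → Y, ∃ (S : (Fin p → Fin 2) → Fin n → Fin 2)
      (κ : Fin p → Fin n) (c : Fin 2 → Y),
      (∀ i : Fin n, (∃ b, ∀ y, S y i = b) ∨ ∃ j, ∀ y, S y i = y j) ∧
      (∀ y j, S y (κ j) = y j) ∧ ∀ y j, χ (S y) (κ j) = c (y j)

/-- pinning -/
def T_PIN : Prop :=
  ∀ (X 𝓛 : Type) [Finite X] (N k : ℕ) (R : 𝓛 → (So N k → X) → Prop) (l₀ : 𝓛)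
    (rd : So N k → So N k → X → X) (I : Finset (Fin k))
    (ι : (J : Type) → [Finite J] → [Nonempty J] → (So N k → (J → X) → X) → J),
    Bas R l₀ rd → Iot R l₀ I ι → ∀ n : ℕ,
    ∃ F : Fin (n + 1) → So N k → (Fin (n + 1) → X) → X,
      (∀ i, FmI R I (Fin (n + 1)) (F i)) ∧ (∀ i, ι (Fin (n + 1)) (F i) = i) ∧
      ∀ e, ¬ Loc R l₀ I ι e → ∀ i i', EqS R l₀ I e (F i) (F i')

/-- the local sorts have a common new element -/
def T_JZ : Prop :=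
  ∀ (X 𝓛 : Type) [Finite X] (N k : ℕ) (R : 𝓛 → (So N k → X) → Prop) (l₀ : 𝓛)
    (rd : So N k → So N k → X → X) (I : Finset (Fin k))
    (ι : (J : Type) → [Finite J] → [Nonempty J] → (So N k → (J → X) → X) → J),
    Bas R l₀ rd → Iot R l₀ I ι → Chn R l₀ I → (∃ e, Loc R l₀ I ι e) ∧
      (∀ e, Loc R l₀ I ι e → I ⊂ e.1) ∧ ∃ v, v ∉ I ∧ ∀ e, Loc R l₀ I ι e → v ∈ e.1

/-- the switch -/
def T_SWI : Prop :=
  ∀ (X 𝓛 : Type) [Finite X] (N k : ℕ) (R : 𝓛 → (So N k → X) → Prop) (l₀ : 𝓛)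
    (rd : So N k → So N k → X → X) (I : Finset (Fin k))
    (ι : (J : Type) → [Finite J] → [Nonempty J] → (So N k → (J → X) → X) → J) (e₀ : So N k),
    Bas R l₀ rd → Iot R l₀ I ι → (∀ e, Loc R l₀ I ι e → e₀.1 ⊆ e.1) → ¬ Loc R l₀ I ι e₀

/-- the next level -/
def T_NXT : Prop :=
  ∀ (X 𝓛 : Type) [Finite X] (N k : ℕ) (R : 𝓛 → (So N k → X) → Prop) (l₀ : 𝓛)
    (rd : So N k → So N k → X → X) (I I' : Finset (Fin k))
    (ι : (J : Type) → [Finite J] → [Nonempty J] → (So N k → (J → X) → X) → J),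
    Bas R l₀ rd → Iot R l₀ I ι → I ⊆ I' → (∀ e, Loc R l₀ I ι e → I' ⊂ e.1) →
    (∀ (p : ℕ) [Fact p.Prime], Nat.card (So N k → X) < p →
      ∃ q : So N k → (ZMod p → X) → X, FmI R I' (ZMod p) q ∧
        ∀ x : ZMod p → So N k → X, VT R l₀ I' x → ∀ e,
          q e (fun i => x (i + 1) e) = q e (fun i => x i e)) → False

/-- cyclic families -/
def T_CYC : Prop :=
  ∀ (X 𝓛 : Type) [Finite X] (N k : ℕ) (R : 𝓛 → (So N k → X) → Prop) (l₀ : 𝓛)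
    (rd : So N k → So N k → X → X) (I : Finset (Fin k)), Bas R l₀ rd →
    (¬ ∃ ι : (J : Type) → [Finite J] → [Nonempty J] → (So N k → (J → X) → X) → J,
      Iot R l₀ I ι) → ∀ (p : ℕ) [Fact p.Prime], Nat.card (So N k → X) < p →
      ∃ q : So N k → (ZMod p → X) → X, FmI R I (ZMod p) q ∧
        ∀ x : ZMod p → So N k → X, VT R l₀ I x → ∀ e,
          q e (fun i => x (i + 1) e) = q e (fun i => x i e)

/-- Olšák families -/
def T_OLK : Prop :=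
  ∀ (X 𝓛 : Type) [Finite X] [Nonempty X] [Finite 𝓛] (N k : ℕ)
    (R : 𝓛 → (So N k → X) → Prop) (l₀ : 𝓛) (rd : So N k → So N k → X → X), Bas R l₀ rd →
    (∀ (p : ℕ) [Fact p.Prime], Nat.card (So N k → X) < p →
      ∃ q : So N k → (ZMod p → X) → X, FmI R ∅ (ZMod p) q ∧
        ∀ x : ZMod p → So N k → X, VT R l₀ ∅ x → ∀ e,
          q e (fun i => x (i + 1) e) = q e (fun i => x i e)) →
    ∃ F : So N k → (Fin 6 → X) → X, Fam R (Fin 6) F ∧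
      ∀ e x y r, F e (pat r x y) = F e (pat 0 x y)

/-! ### 7. The finite template -/

/-- the limit of the Olšák families -/
def T_LIM : Prop :=
  ∀ (τ σ : Sig) (N : ℕ) (F : Set (Str τ (Fin N))) (Al : Fin σ.m → Fin τ.m → Prop), Hyp τ N F →
    (∀ k : ℕ, 1 ≤ k → ∃ G : So N k → (Fin 6 → Ty τ N (Fin k)) → Ty τ N (Fin k),
      Fam (RR F Al k) (Fin 6) G ∧ ∀ e x y r, G e (pat r x y) = G e (pat 0 x y)) →
    HasOlsak (tmG F Al) (tmG F Al)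

/-- correctness of the reduction -/
def T_RE1 : Prop :=
  ∀ (τ σ : Sig) (N : ℕ) (F : Set (Str τ (Fin N))) (Al : Fin σ.m → Fin τ.m → Prop) (A : Type)
    (𝔸 : Str σ A), Hyp τ N F → Tpl F Al 𝔸 → ∀ (n : ℕ) (𝕏 : Str σ (Fin n)),
    (∃ f, IsHom 𝕏 𝔸 f) ↔ ∃ q : (j : Fin N) → (Fin (j + 1) → Fin (n + N)) → DmG τ N,
      ∀ (s : Option (Fin σ.m)) (y : Fin (arP σ N s) → Fin (n + N))
        (t : Fin (arP σ N s) → Fin (arP σ N s)), relP (pls 𝕏 N) N s y →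
        (∀ a b, y a ≤ y b ↔ t a ≤ t b) → FmG F Al s t (fun p => q p.1 (fun i => y (p.2 i)))

/-- the reduction -/
def T_RED : Prop :=
  ∀ (τ σ : Sig) (N : ℕ) (F : Set (Str τ (Fin N))) (Al : Fin σ.m → Fin τ.m → Prop) (A : Type)
    (𝔸 : Str σ A), Hyp τ N F → Tpl F Al 𝔸 →
    N793a5b8e.ManyOneReducible (CSP 𝔸) (CSP (tmG F Al))

/-! ### 8. The final form -/

/-- The structure is connected. -/
def Connected {τ : Sig} {W : Type} (D : Str τ W) : Prop :=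
  ∀ S : Set W, (∀ (l : Fin τ.m) (z : Fin (τ.ar l) → W), D l z →
    (∀ i, z i ∈ S) ∨ ∀ i, z i ∉ S) → S = ∅ ∨ S = Set.univ

/-- no structure in the list `L` has a homomorphism to `M` -/
def Avoids {τ : Sig} {W : Type} (L : List (Σ n : ℕ, Str τ (Fin n))) (M : Str τ W) : Prop :=
  ∀ D ∈ L, ∀ f : Fin D.1 → W, ¬ IsHom D.2 M f

/-- from the list of the forbidden structures to structures on `Fin N` -/
def T_PAD : Prop :=
  ∀ (τ σ : Sig) (Al : Fin σ.m → Fin τ.m → Prop) (L : List (Σ n : ℕ, Str τ (Fin n))) (A : Type)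
    (𝔸 : Str σ A), Nonempty A → (∀ l, 1 ≤ τ.ar l) → (∀ D ∈ L, Connected D.2) →
    (∀ (n : ℕ) (𝕏 : Str σ (Fin n)), (∃ f, IsHom 𝕏 𝔸 f) ↔
      ∃ M : Str τ (Fin n), Avoids L M ∧ Cols Al M 𝕏) →
    ∃ (N : ℕ) (F : Set (Str τ (Fin N))), Hyp τ N F ∧
      (∀ (W : Type) (M : Str τ W), Nonempty W → (Val F M ↔ Avoids L M)) ∧ Tpl F Al 𝔸

/-- precoloured problems -/
def T_PRE : Prop :=
  ∀ (τ σ : Sig) (N : ℕ) (F : Set (Str τ (Fin N))) (Al : Fin σ.m → Fin τ.m → Prop),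
    (∀ c : Fin τ.m, ∃ l : Fin σ.m, τ.ar c = σ.ar l ∧ ∀ c', Al l c' ↔ c' = c) → Frc F Al

end Pool.Agent.H53.GM
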