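import Pool.Agent.H53.GR.Targets
import Pool.Agent.H58.CT.Targets

/-!
# Forbidden coloured patterns (GMSNP with precolouring): definitions
-/

set_option autoImplicit false
set_option linter.unusedVariables false

namespace Pool.Agent.H53.GM

open Pool.Agent.H68.BP Pool.Agent.H58.SF Pool.Agent.H53.GC Pool.Agent.H53.GR
open Pool.Agent.H58.CT (Cln)
open Classical

noncomputable section

/-! ### Components -/

section types

variable {τ σ : Sig} {N : ℕ} {W W' J J' : Type}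

/-- The set `S` contains every atom which it touches. -/
def AClosed (D : Str τ W) (S : Set W) : Prop :=
  ∀ (l : Fin τ.m) (z : Fin (τ.ar l) → W), D l z → (∃ i, z i ∈ S) → ∀ i, z i ∈ S

/-- The set `S` contains an atom. -/
def HasAt (D : Str τ W) (S : Set W) : Prop :=
  ∃ (l : Fin τ.m) (z : Fin (τ.ar l) → W), D l z ∧ ∀ i, z i ∈ S

/-- All atoms are in one component. -/
def Conn (D : Str τ W) : Prop :=
  ∀ S : Set W, AClosed D S → HasAt D S → ∀ (l : Fin τ.m) (z : Fin (τ.ar l) → W), D l z →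
    ∀ i, z i ∈ S

/-- Each component with an atom contains a root. -/
def RC (D : Str τ W) (ρ : W → Option J) : Prop :=
  ∀ S : Set W, AClosed D S → HasAt D S → ∃ v ∈ S, ρ v ≠ none

/-- the atoms of `D` which are mapped to atoms of `M` -/
def sub (D : Str τ W) (f : W → W') (M : Str τ W') : Str τ W :=
  fun l z => D l z ∧ M l (fun i => f (z i))

/-! ### Types -/

/-- Types of tuples with the index set `J`: sets of pieces `(D, ρ)`. -/
abbrev Ty (τ : Sig) (N : ℕ) (J : Type) : Type := Set (Str τ (Fin N) × (Fin N → Option J))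

/-- the type of the tuple `a`: the pieces with a homomorphism which maps the roots to `a` -/
def tp (N : ℕ) (M : Str τ W) (a : J → W) : Ty τ N J :=
  {q | RC q.1 q.2 ∧ ∃ f : Fin N → W, IsHom q.1 M f ∧ ∀ v i, q.2 v = some i → f v = a i}

/-- the pieces with roots in `e` -/
def rse (e : Finset J) (t : Ty τ N J) : Ty τ N J :=
  {q | q ∈ t ∧ ∀ v i, q.2 v = some i → i ∈ e}

/-- the type of the tuple `a ∘ u` -/
def rs (u : J' → J) (t : Ty τ N J) : Ty τ N J' := {q | (q.1, fun v => (q.2 v).map u) ∈ t}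

/-- `M` is valid: no structure in `F` has a homomorphism to `M`. -/
def Val (F : Set (Str τ (Fin N))) (M : Str τ W) : Prop :=
  ∀ D ∈ F, ∀ f : Fin N → W, ¬ IsHom D M f

/-- the types which occur in finite valid structures -/
def Rl (F : Set (Str τ (Fin N))) (t : Ty τ N J) : Prop :=
  ∃ (W : Type) (_ : Finite W) (M : Str τ W) (a : J → W), Val F M ∧ tp N M a = t

/-- maximal types -/
def Mx (F : Set (Str τ (Fin N))) (t : Ty τ N J) : Prop :=
  Rl F t ∧ ∀ t', Rl F t' → t ⊆ t' → t' = t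

/-- The hypotheses on the forbidden patterns. -/
structure Hyp (τ : Sig) (N : ℕ) (F : Set (Str τ (Fin N))) : Prop where
  pos : 1 ≤ N
  ar : ∀ l, 1 ≤ τ.ar l ∧ τ.ar l ≤ N
  conn : ∀ D ∈ F, Conn D
  atom : ∀ D ∈ F, HasAt D Set.univ

/-- the structure `M` where each element has been replaced by copies with the names `J` -/
def blw (M : Str τ W) (J : Type) : Str τ (W × J) := fun l z => M l (fun i => (z i).1)

/-- the piece which consists of the atom `c (z)` -/
def atm (N : ℕ) (c : Fin τ.m) (z : Fin (τ.ar c) → J) :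
    Str τ (Fin N) × (Fin N → Option J) :=
  (fun c' w => c' = c ∧ ∀ i, (w i : ℕ) = (i : ℕ),
    fun v => if h : (v : ℕ) < τ.ar c then some (z ⟨v, h⟩) else none)

/-! ### Colourings -/

/-- `M` is a colouring of `𝕏`: each atom of `𝕏` has an allowed colour. -/
def Cols (Al : Fin σ.m → Fin τ.m → Prop) (M : Str τ W) (𝕏 : Str σ W) : Prop :=
  ∀ (l : Fin σ.m) (z : Fin (σ.ar l) → W), 𝕏 l z →
    ∃ c, Al l c ∧ ∃ h : τ.ar c = σ.ar l, M c (fun i => z (Fin.cast h i))

/-- `t` contains an allowed colour of the atom `l (z)`. -/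
def hasl (Al : Fin σ.m → Fin τ.m → Prop) (l : Fin σ.m) (z : Fin (σ.ar l) → J) (t : Ty τ N J) :
    Prop :=
  ∃ c, Al l c ∧ ∃ h : τ.ar c = σ.ar l, atm N c (fun i => z (Fin.cast h i)) ∈ t

/-- The constraint satisfaction problem of `𝔸` is the problem whether there is a valid
colouring. -/
def Tpl {A : Type} (F : Set (Str τ (Fin N))) (Al : Fin σ.m → Fin τ.m → Prop) (𝔸 : Str σ A) :
    Prop :=
  ∀ (n : ℕ) (𝕏 : Str σ (Fin n)), (∃ f, IsHom 𝕏 𝔸 f) ↔
    ∃ M : Str τ (Fin n), Val F M ∧ Cols Al M 𝕏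

/-- Colours can be forced. -/
def Frc (F : Set (Str τ (Fin N))) (Al : Fin σ.m → Fin τ.m → Prop) : Prop :=
  ∀ (n : ℕ) (M : Str τ (Fin n)), Val F M → ∃ (m : ℕ) (D : Str σ (Fin m)) (e : Fin n → Fin m),
    Function.Injective e ∧ (∃ M' : Str τ (Fin m), Val F M' ∧ Cols Al M' D ∧ IsHom M M' e) ∧
    ∀ M' : Str τ (Fin m), Val F M' → Cols Al M' D → IsHom M M' e

/-- `(D, d)` is a gadget for the maximal type `P`. -/
structure Gad {k : ℕ} (F : Set (Str τ (Fin N))) (Al : Fin σ.m → Fin τ.m → Prop)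
    (P : Ty τ N (Fin k)) {n : ℕ} (D : Str σ (Fin n)) (d : Fin k → Fin n) : Prop where
  inj : Function.Injective d
  ex : ∃ M : Str τ (Fin n), Val F M ∧ Cols Al M D ∧ tp N M d = P
  all : ∀ M : Str τ (Fin n), Val F M → Cols Al M D → P ⊆ tp N M d

end types

/-! ### Systems -/

section systems

/-- A system: each element `x` is in the part `pt x`; `gd g κ` means that the set `g` is a guard
with the label `κ`. -/
structure Sy (Q 𝒦 W : Type) where
  pt : W → Q
  gd : Finset W → 𝒦 → Prop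

variable {Q 𝒦 W W' : Type}

/-- maps which preserve parts and labels -/
def Hm (C : Sy Q 𝒦 W) (C' : Sy Q 𝒦 W') (f : W → W') : Prop :=
  ∀ g κ, C.gd g κ → C'.gd (g.image f) κ ∧ ∀ x ∈ g, C'.pt (f x) = C.pt x

/-- the guards inside `U` -/
def Sy.res (C : Sy Q 𝒦 W) (U : Set W) : Sy Q 𝒦 W :=
  ⟨C.pt, fun g κ => C.gd g κ ∧ ∀ x ∈ g, x ∈ U⟩

/-- A class of systems is given by the restriction of labels to smaller sets of parts, and by the
labels which are admitted for a set of parts. -/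
structure Cls (Q 𝒦 : Type) where
  rs : Finset Q → 𝒦 → 𝒦
  ok : Finset Q → 𝒦 → Prop

/-- the systems of the class `K` -/
structure IsSys (K : Cls Q 𝒦) (C : Sy Q 𝒦 W) : Prop where
  tr : ∀ g κ, C.gd g κ → Set.InjOn C.pt (g : Set W)
  dn : ∀ g κ g', C.gd g κ → g' ⊆ g → C.gd g' (K.rs (g'.image C.pt) κ)
  un : ∀ g κ κ', C.gd g κ → C.gd g κ' → κ = κ'
  ok : ∀ g κ, C.gd g κ → K.ok (g.image C.pt) κ

/-- A property of systems which is preserved by preimages, is local and is preserved by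
amalgamation over guards. -/
structure Axs (K : Cls Q 𝒦) (N : ℕ) (G : (W : Type) → Sy Q 𝒦 W → Prop) : Prop where
  g1 : ∀ (W W' : Type) (C : Sy Q 𝒦 W) (C' : Sy Q 𝒦 W') (f : W → W'), Hm C C' f → G W' C' → G W C
  g2 : ∀ (W : Type) [Finite W] (C : Sy Q 𝒦 W), IsSys K C →
    (∀ U : Finset W, U.card ≤ N → G W (C.res (U : Set W))) → G W C
  g3 : ∀ (W : Type) [Finite W] (C : Sy Q 𝒦 W) (U₁ U₂ : Set W) (g₀ : Finset W) (κ₀ : 𝒦),
    IsSys K C → C.gd g₀ κ₀ → (∀ x, x ∈ g₀ ↔ x ∈ U₁ ∧ x ∈ U₂) →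
    (∀ g κ, C.gd g κ → (∀ x ∈ g, x ∈ U₁) ∨ ∀ x ∈ g, x ∈ U₂) →
    G W (C.res U₁) → G W (C.res U₂) → G W C

/-- All restrictions to at most `m` elements have the property `G`. -/
def LG (G : (W : Type) → Sy Q 𝒦 W → Prop) (m : ℕ) (C : Sy Q 𝒦 W) : Prop :=
  ∀ U : Finset W, U.card ≤ m → G W (C.res (U : Set W))

/-- the class of the systems over the system `B` -/
def Cls.ov (K : Cls Q 𝒦) (B : Sy Q 𝒦 W) : Cls W 𝒦 :=
  ⟨fun α κ => K.rs (α.image B.pt) κ, fun α κ => B.gd α κ⟩

/-- a system over `B` as a system with the parts `Q` -/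
def Sy.fg (C : Sy W 𝒦 W') (B : Sy Q 𝒦 W) : Sy Q 𝒦 W' := ⟨fun x => B.pt (C.pt x), C.gd⟩

/-- For each colouring of the guards of `E` there is a copy of `C` in which the colours of the
guards depend only on their parts and labels. -/
def Ram (C : Sy Q 𝒦 W) (Y : Type) (E : Sy Q 𝒦 W') : Prop :=
  ∀ χ : Finset W' → Y, ∃ (φ : W → W') (ν : Finset Q → 𝒦 → Y), Hm C E φ ∧
    ∀ g κ, C.gd g κ → χ (g.image φ) = ν (g.image C.pt) κ

/-- The property (S) of the partite lemma. -/
def Spl (C : Sy Q 𝒦 W) (C' : Sy Q 𝒦 W') (α : Finset Q) : Prop :=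
  ∀ U : Finset W', Set.InjOn C'.pt (U : Set W') →
    (∃ ψ : W' → W, ∀ G κ, C'.gd G κ → G ⊆ U →
      (∃ κ', C.gd (G.image ψ) κ') ∧ ∀ x ∈ G, C.pt (ψ x) = C'.pt x) ∨
    ∃ U₁ U₂ : Finset W', U₁ ∪ U₂ = U ∧ U₁ ≠ U ∧ U₂ ≠ U ∧
      (∀ G κ, C'.gd G κ → G ⊆ U → G ⊆ U₁ ∨ G ⊆ U₂) ∧ ∀ x ∈ U₁ ∩ U₂, C'.pt x ∈ α

end systems

/-! ### Systems of types -/

section base

variable {τ σ : Sig} {N k : ℕ} {W : Type}

/-- The class of the systems of maximal types over the constants `I`. -/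
def bC (F : Set (Str τ (Fin N))) (I : Finset (Fin k)) : Cls (Fin k) (Ty τ N (Fin k)) :=
  ⟨fun e t => rse (e ∪ I) t, fun e t => Disjoint e I ∧ ∃ P, Mx F P ∧ rse (e ∪ I) P = t⟩

/-- The system is realized in a finite valid structure, with constants `a`. -/
def Gd0 (F : Set (Str τ (Fin N))) (I : Finset (Fin k)) (W : Type)
    (C : Sy (Fin k) (Ty τ N (Fin k)) W) : Prop :=
  ∃ (W' : Type) (_ : Finite W') (M : Str τ W') (f : W → W') (a : Fin k → W'), Val F M ∧
    ∀ g t, C.gd g t → ∀ b : Fin k → W', (∀ v ∈ I, b v = a v) → (∀ x ∈ g, b (C.pt x) = f x) →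
      rse (g.image C.pt ∪ I) (tp N M b) = t

end base

/-! ### Graded systems -/

section graded

/-- The regions: `none` is the region `0`, `some (some (t, r))` is the region `(t, r)`, and
`some none` is the region `S`. -/
abbrev Rg (L : ℕ) : Type := Option (Option (Fin L × Fin 3))

/-- the level of a region -/
def lev {L : ℕ} : Rg L → ℕ
  | none => 0
  | some none => L + 1
  | some (some q) => q.1 + 1

/-- The region belongs to the path `r`. -/
def inR {L : ℕ} (r : Fin 3) : Rg L → Prop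
  | some (some q) => q.2 = r
  | _ => True

/-- adjacent (or equal) regions -/
def Adj {L : ℕ} (a b : Rg L) : Prop :=
  lev a ≤ lev b + 1 ∧ lev b ≤ lev a + 1 ∧
    ∀ q q' : Fin L × Fin 3, a = some (some q) → b = some (some q') → q.2 = q'.2

variable {τ σ : Sig} {N k L : ℕ} {W : Type}

/-- labels: six types and two types -/
abbrev Kd (τ : Sig) (N k : ℕ) : Type := (Fin 6 → Ty τ N (Fin k)) × (Fin 2 → Ty τ N (Fin k))

/-- There is a part in the region `0`. -/
def hasZ (α : Finset (Fin k × Rg L)) : Prop := ∃ v, (v, none) ∈ α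

/-- There is a part in the region `S`. -/
def hasS (α : Finset (Fin k × Rg L)) : Prop := ∃ v, (v, some none) ∈ α

/-- All parts are in the region `0`. -/
def AZ (α : Finset (Fin k × Rg L)) : Prop := α.Nonempty ∧ ∀ x ∈ α, x.2 = none

/-- All parts are in the region `S`. -/
def AS (α : Finset (Fin k × Rg L)) : Prop := α.Nonempty ∧ ∀ x ∈ α, x.2 = some none

/-- the variables of the parts -/
def vr (α : Finset (Fin k × Rg L)) : Finset (Fin k) := α.image Prod.fst

/-- the restriction of the label -/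
def rsG (I : Finset (Fin k)) (a₀ : Ty τ N (Fin k)) (α : Finset (Fin k × Rg L))
    (κ : Kd τ N k) : Kd τ N k :=
  if α = ∅ then (fun _ => a₀, fun _ => a₀) else
    (if AS α then fun _ => ∅ else fun c => rse (vr α ∪ I) (κ.1 c),
      if AZ α then fun _ => ∅ else fun d => rse (vr α ∪ I) (κ.2 d))

/-- admitted labels of nonempty guards -/
structure OkG (F : Set (Str τ (Fin N))) (I : Finset (Fin k)) (a₀ : Ty τ N (Fin k))
    (α : Finset (Fin k × Rg L)) (κ : Kd τ N k) : Prop where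
  inj : Set.InjOn (Prod.fst : Fin k × Rg L → Fin k) (α : Set (Fin k × Rg L))
  dis : Disjoint (vr α) I
  adj : ∀ x ∈ α, ∀ y ∈ α, Adj x.2 y.2
  six : ¬ AS α → ∀ c, (∃ P, Mx F P ∧ rse (vr α ∪ I) P = κ.1 c) ∧ rse I (κ.1 c) = a₀
  six0 : AS α → κ.1 = fun _ => ∅
  two : ¬ AZ α → ∀ d, (∃ P, Mx F P ∧ rse (vr α ∪ I) P = κ.2 d) ∧ rse I (κ.2 d) = a₀
  two0 : AZ α → κ.2 = fun _ => ∅
  mid : ¬ AS α → ¬ AZ α → ∀ (v : Fin k) (t : Fin L) (r : Fin 3), (v, some (some (t, r))) ∈ α →
    κ.1 = pat r (κ.2 0) (κ.2 1)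

/-- the class of the graded systems -/
def gC (L : ℕ) (F : Set (Str τ (Fin N))) (I : Finset (Fin k))
    (a₀ : Ty τ N (Fin k)) : Cls (Fin k × Rg L) (Kd τ N k) :=
  ⟨rsG I a₀, fun α κ => (α = ∅ ∧ κ = (fun _ => a₀, fun _ => a₀)) ∨ (α ≠ ∅ ∧ OkG F I a₀ α κ)⟩

/-- the system `c` of the six systems outside of the region `S` -/
def dz (C : Sy (Fin k × Rg L) (Kd τ N k) W) (c : Fin 6) : Sy (Fin k) (Ty τ N (Fin k)) W :=
  ⟨fun x => (C.pt x).1, fun g t => ∃ κ, C.gd g κ ∧ ¬ hasS (g.image C.pt) ∧ t = κ.1 c⟩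

/-- the system `d` of the two systems outside of the region `0` -/
def ds (C : Sy (Fin k × Rg L) (Kd τ N k) W) (d : Fin 2) : Sy (Fin k) (Ty τ N (Fin k)) W :=
  ⟨fun x => (C.pt x).1, fun g t => ∃ κ, C.gd g κ ∧ ¬ hasZ (g.image C.pt) ∧ t = κ.2 d⟩

/-- good graded systems -/
def GdG (F : Set (Str τ (Fin N))) (I : Finset (Fin k)) (W : Type)
    (C : Sy (Fin k × Rg L) (Kd τ N k) W) : Prop :=
  (∀ c, Gd0 F I W (dz C c)) ∧ ∀ d, Gd0 F I W (ds C d)

/-- the copy of an element of the region `g` in the sheet `(r, c)` -/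
def pos (g : Rg L) (r : Fin 3) (c : Fin 6) : Fin 6 :=
  if g = some none then pat r (0 : Fin 6) 1 c else c

/-- the label in the sheet `(r, c)` -/
def labK (α : Finset (Fin k × Rg L)) (κ : Kd τ N k) (r : Fin 3) (c : Fin 6) :
    Ty τ N (Fin k) :=
  if hasS α then pat r (κ.2 0) (κ.2 1) c else κ.1 c

/-- the system of the sheets -/
def KK (C : Sy (Fin k × Rg L) (Kd τ N k) W) :
    Sy (Fin k) (Ty τ N (Fin k)) (W × Fin 6) :=
  ⟨fun x => (C.pt x.1).1, fun G t => ∃ (g : Finset W) (κ : Kd τ N k) (r : Fin 3) (c : Fin 6),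
    C.gd g κ ∧ (∀ x ∈ g, inR r (C.pt x).2) ∧ G = g.image (fun x => (x, pos (C.pt x).2 r c)) ∧
    t = labK (g.image C.pt) κ r c⟩

/-! ### Configurations -/

/-- the position of the argument `d` in the pattern `r` -/
def ix (r : Fin 3) (d : Fin 2) : Fin 6 := (![![0, 2], ![0, 1], ![1, 0]] : Fin 3 → Fin 2 → Fin 6) r d

/-- configurations -/
structure Cfg (F : Set (Str τ (Fin N))) (I : Finset (Fin k)) (a₀ : Ty τ N (Fin k)) (r : Fin 3)
    (lb : Fin k → Rg L) (p : Fin 6 → Ty τ N (Fin k)) : Prop where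
  mx : ∀ c, Mx F (p c) ∧ rse I (p c) = a₀
  reg : ∀ v, v ∉ I → inR r (lb v)
  adj : ∀ v, v ∉ I → ∀ v', v' ∉ I → Adj (lb v) (lb v')
  bin : (∀ v, v ∉ I → lb v = none) ∨ ∃ P P', p = pat r P P'

/-- the parts of the set `e` of variables -/
def pts (lb : Fin k → Rg L) (e : Finset (Fin k)) : Finset (Fin k × Rg L) :=
  e.image (fun v => (v, lb v))

/-- the label of the set `e` of variables -/
def kd (I : Finset (Fin k)) (a₀ : Ty τ N (Fin k)) (r : Fin 3) (lb : Fin k → Rg L)
    (p : Fin 6 → Ty τ N (Fin k)) (e : Finset (Fin k)) : Kd τ N k :=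
  rsG I a₀ (pts lb e) (p, fun d => p (ix r d))

/-- the names of the configurations -/
abbrev CfI (L : ℕ) (F : Set (Str τ (Fin N))) (I : Finset (Fin k)) (a₀ : Ty τ N (Fin k)) : Type :=
  {q : Fin 3 × (Fin k → Rg L) × (Fin 6 → Ty τ N (Fin k)) // Cfg F I a₀ q.1 q.2.1 q.2.2}

/-- the disjoint union of all configurations -/
def cS (L : ℕ) (F : Set (Str τ (Fin N))) (I : Finset (Fin k))
    (a₀ : Ty τ N (Fin k)) : Sy (Fin k × Rg L) (Kd τ N k) (CfI L F I a₀ × Fin k) :=
  ⟨fun x => (x.2, x.1.1.2.1 x.2), fun g κ => ∃ (q : CfI L F I a₀) (e : Finset (Fin k)),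
    Disjoint e I ∧ e.card ≤ N ∧ g = e.image (fun v => (q, v)) ∧
    κ = kd I a₀ q.1.1 q.1.2.1 q.1.2.2 e⟩

end graded

/-! ### Families -/

section families

variable {X 𝓛 : Type} {N k : ℕ} {J J' : Type}

/-- The tuple of patterns is valid at the level `I`: all are in the relation `l`, and they agree at
the sorts which do not contain `I` strictly. -/
def VT (R : 𝓛 → (So N k → X) → Prop) (l : 𝓛) (I : Finset (Fin k)) (p : J → So N k → X) : Prop :=
  (∀ i, R l (p i)) ∧ ∀ e : So N k, ¬ I ⊂ e.1 → ∀ i i', p i e = p i' e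

/-- idempotent families of the level `I` -/
structure FmI (R : 𝓛 → (So N k → X) → Prop) (I : Finset (Fin k)) (J : Type)
    (F : So N k → (J → X) → X) : Prop where
  fam : ∀ (l : 𝓛) (p : J → So N k → X), VT R l I p → R l (fun e => F e (fun i => p i e))
  idem : ∀ e t, F e (fun _ => t) = t

/-- `F` and `G` agree at the sort `e` on valid tuples. -/
def EqS (R : 𝓛 → (So N k → X) → Prop) (l₀ : 𝓛) (I : Finset (Fin k)) (e : So N k)
    (F G : So N k → (J → X) → X) : Prop :=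
  ∀ p : J → So N k → X, VT R l₀ I p → F e (fun i => p i e) = G e (fun i => p i e)

/-- The system of relations. -/
structure Bas (R : 𝓛 → (So N k → X) → Prop) (l₀ : 𝓛) (rd : So N k → So N k → X → X) : Prop where
  base : ∀ l p, R l p → R l₀ p
  read : ∀ p, R l₀ p → ∀ a b : So N k, a.1 ⊆ b.1 → p a = rd a b (p b)

/-- A homomorphism to the projections at the level `I`. -/
structure Iot (R : 𝓛 → (So N k → X) → Prop) (l₀ : 𝓛) (I : Finset (Fin k))
    (ι : (J : Type) → [Finite J] → [Nonempty J] → (So N k → (J → X) → X) → J) : Prop where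
  pr : ∀ (J : Type) [Finite J] [Nonempty J] (i : J), ι J (fun e w => w i) = i
  comp : ∀ (J J' : Type) [Finite J] [Nonempty J] [Finite J'] [Nonempty J']
    (F : So N k → (J → X) → X) (G : J → So N k → (J' → X) → X), FmI R I J F →
    (∀ i, FmI R I J' (G i)) →
    ι J' (fun e w => F e (fun i => G i e w)) = ι J' (G (ι J F))
  eqv : ∀ (J : Type) [Finite J] [Nonempty J] (F G : So N k → (J → X) → X), FmI R I J F →
    FmI R I J G → (∀ e, EqS R l₀ I e F G) → ι J F = ι J G

/-- The value of `ι` can be read from the value at the sort `e`. -/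
def Loc (R : 𝓛 → (So N k → X) → Prop) (l₀ : 𝓛) (I : Finset (Fin k))
    (ι : (J : Type) → [Finite J] → [Nonempty J] → (So N k → (J → X) → X) → J) (e : So N k) :
    Prop :=
  ∃ (n : ℕ) (p : Fin (n + 2) → So N k → X), VT R l₀ I p ∧
    ∀ F G : So N k → (Fin (n + 2) → X) → X, FmI R I (Fin (n + 2)) F → FmI R I (Fin (n + 2)) G →
      F e (fun i => p i e) = G e (fun i => p i e) → ι (Fin (n + 2)) F = ι (Fin (n + 2)) G

/-- Chains of binary families. -/
def Chn (R : 𝓛 → (So N k → X) → Prop) (l₀ : 𝓛) (I : Finset (Fin k)) : Prop :=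
  ∃ (H : So N k → (Fin 6 → X) → X) (D : So N k → (Fin 2 → X) → X), FmI R I (Fin 6) H ∧
    FmI R I (Fin 2) D ∧ ∀ r : Fin 3, ∃ (m : ℕ) (G : ℕ → So N k → (Fin 2 → X) → X),
      (∀ j, FmI R I (Fin 2) (G j)) ∧
      (∀ e, EqS R l₀ I e (G 0) (fun e w => H e (pat r (w 0) (w 1)))) ∧
      (∀ e, EqS R l₀ I e (G m) D) ∧
      ∀ j, j < m → ∃ v, v ∉ I ∧ ∀ e : So N k, v ∉ e.1 → EqS R l₀ I e (G j) (G (j + 1))

/-- the binary family which arises from `F` by the identification of variables `s` -/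
def mnr {n : ℕ} (s : Fin n → Fin 2) (F : So N k → (Fin n → X) → X) :
    So N k → (Fin 2 → X) → X :=
  fun e w => F e (fun i => w (s i))

variable {τ σ : Sig}

/-- The relations on patterns: `none` are all patterns, `some ⟨l, z⟩` are those with the atom
`l (z)`. -/
def RR (F : Set (Str τ (Fin N))) (Al : Fin σ.m → Fin τ.m → Prop) (k : ℕ) :
    Option (Σ l : Fin σ.m, (Fin (σ.ar l) → Fin k)) → (So N k → Ty τ N (Fin k)) → Prop
  | none => fun p => ∃ P, Mx F P ∧ ∀ e : So N k, p e = rse e.1 P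
  | some q => fun p => ∃ P, Mx F P ∧ hasl Al q.1 q.2 P ∧ ∀ e : So N k, p e = rse e.1 P

end families

/-! ### The finite template -/

section template

variable {τ σ : Sig} {N : ℕ} {W : Type}

/-- the domain of the template: types of tuples of length at most `N` -/
abbrev DmG (τ : Sig) (N : ℕ) : Type := Σ j : Fin N, Ty τ N (Fin (j + 1))

/-- The tuple `x` has a colour of the relation `s` (or `s` is the full relation). -/
def colP (Al : Fin σ.m → Fin τ.m → Prop) (N : ℕ) (M : Str τ W) :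
    (s : Option (Fin σ.m)) → (Fin (arP σ N s) → W) → Prop
  | none => fun _ => True
  | some l => fun x => ∃ c, Al l c ∧ ∃ h : τ.ar c = σ.ar l, M c (fun i => x (Fin.cast h i))

/-- the patterns of the relation `s` for the order `t` -/
def FmG (F : Set (Str τ (Fin N))) (Al : Fin σ.m → Fin τ.m → Prop) (s : Option (Fin σ.m))
    (t : Fin (arP σ N s) → Fin (arP σ N s)) (q : Ps N (arP σ N s) → DmG τ N) : Prop :=
  ∃ (W : Type) (_ : Finite W) (M : Str τ W) (x : Fin (arP σ N s) → W), Val F M ∧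
    colP Al N M s x ∧ (∀ a b, t a = t b → x a = x b) ∧
    ∀ (j : Fin N) (α : Fin (j + 1) → Fin (arP σ N s)), StrictMono (fun i => t (α i)) →
      Mx F (tp N M (fun i => x (α i))) ∧ q ⟨j, α⟩ = ⟨j, tp N M (fun i => x (α i))⟩

/-- The finite template. -/
def tmG (F : Set (Str τ (Fin N))) (Al : Fin σ.m → Fin τ.m → Prop) :
    Str (sigOf (Sym σ N) (fun s => Ps N (arP σ N s.1))) (DmG τ N) :=
  strOn fun s q => FmG F Al s.1 s.2 q

end template

end

end Pool.Agent.H53.GM
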