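import Pool.Agent.H53.GM.Basic

/-!
# Forbidden coloured patterns: more targets
-/

set_option autoImplicit false
set_option linter.unusedVariables false

namespace Pool.Agent.H53.GM

open Pool.Agent.H68.BP Pool.Agent.H58.SF Pool.Agent.H53.GC Pool.Agent.H53.GR
open Classical

noncomputable section

/-- the argument `c` of the sheet `r` -/
def ux {τ : Sig} {N k L : ℕ} {W A : Type} (E : Sy (Fin k × Rg L) (Kd τ N k) W)
    (f : W × Fin 6 → A) (a : Fin k → A) (r : Fin 3) (c : Fin 6) : W ⊕ Fin k → A :=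
  Sum.elim (fun w => f (w, pos (E.pt w).2 r c)) a

/-- the vertex of `g` with the variable `v`, or the constant `v` -/
def ag {τ : Sig} {N k L : ℕ} {W : Type} (E : Sy (Fin k × Rg L) (Kd τ N k) W) (g : Finset W)
    (v : Fin k) : W ⊕ Fin k :=
  if h : ∃ x ∈ g, (E.pt x).1 = v then Sum.inl h.choose else Sum.inr v

/-- the values of the family of the labelling `lb` of the path `r` -/
def vl {τ : Sig} {N k : ℕ} (F : Set (Str τ (Fin N))) (I : Finset (Fin k))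
    (νf : Ty τ N (Fin k) → Finset (Fin k × Rg (N + 1)) → Kd τ N k → Ty τ N (Fin k))
    (r : Fin 3) (lb : Fin k → Rg (N + 1)) (e : So N k) (w : Fin 6 → Ty τ N (Fin k)) :
    Ty τ N (Fin k) :=
  if I ⊂ e.1 ∧ ∃ p : Fin 6 → Ty τ N (Fin k), (∀ c, Mx F (p c) ∧ rse e.1 (p c) = w c) ∧
      ∀ c, rse I (p c) = rse I (p 0) then
    νf (rse I (w 0)) (pts lb (e.1 \ I)) (kd I (rse I (w 0)) r lb w (e.1 \ I))
  else w 0

end

/-- The output at a guard does not depend on the path. -/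
def T_CNI : Prop :=
  ∀ (τ : Sig) (N k L : ℕ) (F : Set (Str τ (Fin N))) (I : Finset (Fin k)) (a₀ : Ty τ N (Fin k))
    (A W Y : Type) (E : Sy (Fin k × Rg L) (Kd τ N k) W) (f : W × Fin 6 → A) (a : Fin k → A)
    (h : (Fin 6 → Fin k → A) → Y), 1 ≤ L → IsSys (gC L F I a₀) E →
    (∀ (r : Fin 3) (P P' : Fin k → A), h (pat r P P') = h (pat 0 P P')) →
    ∀ g κ, E.gd g κ → ∀ r r' : Fin 3, (∀ x ∈ g, inR r (E.pt x).2) →
      (∀ x ∈ g, inR r' (E.pt x).2) →
      h (fun c v => ux E f a r c (ag E g v)) = h (fun c v => ux E f a r' c (ag E g v))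

/-- the labels of a configuration -/
def T_LBK : Prop :=
  ∀ (τ : Sig) (N k L : ℕ) (F : Set (Str τ (Fin N))) (I : Finset (Fin k)) (a₀ : Ty τ N (Fin k))
    (r : Fin 3) (lb : Fin k → Rg L) (p : Fin 6 → Ty τ N (Fin k)), Cfg F I a₀ r lb p →
    ∀ e : Finset (Fin k), Disjoint e I → ∀ c,
      labK (pts lb e) (kd I a₀ r lb p e) r c = rse (e ∪ I) (p c)

/-- the values of the labels, from the outputs -/
def T_CNE : Prop :=
  ∀ (τ σ : Sig) (N k : ℕ) (F : Set (Str τ (Fin N))) (Al : Fin σ.m → Fin τ.m → Prop) (A : Type),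
    Hyp τ N F → 1 ≤ k → ∀ (I : Finset (Fin k)) (a₀ : Ty τ N (Fin k)),
    (∃ P, Mx F P ∧ rse I P = a₀) →
    ∀ (K : (Fin k → A) → Ty τ N (Fin k)), (∀ a, Mx F (K a)) →
      (∀ (e : Finset (Fin k)) (a a' : Fin k → A), (∀ v ∈ e, a v = a' v) →
        rse e (K a) = rse e (K a')) →
    ∀ (W : Type) [Finite W] (E : Sy (Fin k × Rg (N + 1)) (Kd τ N k) W)
      (f : W × Fin 6 → A) (a : Fin k → A) (h : (Fin 6 → Fin k → A) → Ty τ N (Fin k)),
      IsSys (gC (N + 1) F I a₀) E → Ram (cS (N + 1) F I a₀) (Ty τ N (Fin k)) E →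
      (∀ g κ, E.gd g κ → ∀ r r' : Fin 3, (∀ x ∈ g, inR r (E.pt x).2) →
        (∀ x ∈ g, inR r' (E.pt x).2) →
        h (fun c v => ux E f a r c (ag E g v)) = h (fun c v => ux E f a r' c (ag E g v))) →
      (∀ (r : Fin 3) (lb : Fin k → Rg (N + 1)) (p : Fin 6 → Ty τ N (Fin k)), Cfg F I a₀ r lb p →
        ∀ e : Finset (Fin k), Disjoint e I → ∀ c,
          labK (pts lb e) (kd I a₀ r lb p e) r c = rse (e ∪ I) (p c)) →
      (∀ r : Fin 3, ∃ x : W ⊕ Fin k → A,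
        (∀ α : Fin k → W ⊕ Fin k, K (fun v => x (α v)) = h (fun c v => ux E f a r c (α v))) ∧
        ∀ (g : Finset W) (t : Fin 6 → Ty τ N (Fin k)),
          Set.InjOn (fun w => (E.pt w).1) (g : Set W) →
          (∀ c, (KK E).gd (g.image (fun w => (w, pos (E.pt w).2 r c))) (t c)) →
          ∀ α : Fin k → W ⊕ Fin k,
          (∀ w ∈ g, α (E.pt w).1 = Sum.inl w) → (∀ v ∈ I, α v = Sum.inr v) →
          (∀ (S : Finset (Fin k)) (P : Ty τ N (Fin k)),
            S ⊆ g.image (fun w => (E.pt w).1) ∪ I → Mx F P →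
            (∀ c, rse S (t c) = rse S P) → rse S (K (fun v => x (α v))) = rse S P) ∧
          ∀ (l : Fin σ.m) (z : Fin (σ.ar l) → Fin k),
            (∀ i, z i ∈ g.image (fun w => (E.pt w).1) ∪ I) →
            (∀ c, hasl Al l z (t c)) → hasl Al l z (K (fun v => x (α v)))) →
    ∃ ν : Finset (Fin k × Rg (N + 1)) → Kd τ N k → Ty τ N (Fin k),
      ∀ (r : Fin 3) (lb : Fin k → Rg (N + 1)) (p : Fin 6 → Ty τ N (Fin k)),
        Cfg F I a₀ r lb p → ∃ P, Mx F P ∧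
        (∀ e : Finset (Fin k), Disjoint e I → e.card ≤ N →
          rse (e ∪ I) P = ν (pts lb e) (kd I a₀ r lb p e)) ∧
        (∀ (S : Finset (Fin k)) (P' : Ty τ N (Fin k)), S.card ≤ N → Mx F P' →
          (∀ c, rse S (p c) = rse S P') → rse S P = rse S P') ∧
        ∀ (l : Fin σ.m) (z : Fin (σ.ar l) → Fin k), (∀ c, hasl Al l z (p c)) →
          hasl Al l z P

/-- the families of the labellings -/
def T_FVL : Prop :=
  ∀ (τ σ : Sig) (N : ℕ) (F : Set (Str τ (Fin N))) (Al : Fin σ.m → Fin τ.m → Prop), Hyp τ N F →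
    ∀ k : ℕ, 1 ≤ k → ∀ (I : Finset (Fin k))
      (νf : Ty τ N (Fin k) → Finset (Fin k × Rg (N + 1)) → Kd τ N k → Ty τ N (Fin k)),
    (∀ a₀ : Ty τ N (Fin k), (∃ P, Mx F P ∧ rse I P = a₀) →
        ∀ (r : Fin 3) (lb : Fin k → Rg (N + 1)) (p : Fin 6 → Ty τ N (Fin k)),
          Cfg F I a₀ r lb p → ∃ P, Mx F P ∧
          (∀ e : Finset (Fin k), Disjoint e I → e.card ≤ N →
            rse (e ∪ I) P = νf a₀ (pts lb e) (kd I a₀ r lb p e)) ∧
          (∀ (S : Finset (Fin k)) (P' : Ty τ N (Fin k)), S.card ≤ N → Mx F P' →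
            (∀ c, rse S (p c) = rse S P') → rse S P = rse S P') ∧
          ∀ (l : Fin σ.m) (z : Fin (σ.ar l) → Fin k), (∀ c, hasl Al l z (p c)) →
            hasl Al l z P) →
    ∀ (r : Fin 3) (lb : Fin k → Rg (N + 1)), (∀ v, v ∉ I → inR r (lb v)) →
      (∀ v, v ∉ I → ∀ v', v' ∉ I → Adj (lb v) (lb v')) →
      (∀ (l : Option (Σ l : Fin σ.m, (Fin (σ.ar l) → Fin k)))
        (p : Fin 6 → So N k → Ty τ N (Fin k)), VT (RR F Al k) l I p →
        ((∀ v, v ∉ I → lb v = none) ∨ ∃ x y : So N k → Ty τ N (Fin k), p = pat r x y) →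
        RR F Al k l (fun e => vl F I νf r lb e (fun c => p c e))) ∧
      ∀ (e : So N k) (t : Ty τ N (Fin k)), vl F I νf r lb e (fun _ => t) = t

/-- the chains, from the families -/
def T_FAC : Prop :=
  ∀ (τ σ : Sig) (N : ℕ) (F : Set (Str τ (Fin N))) (Al : Fin σ.m → Fin τ.m → Prop), Hyp τ N F →
    ∀ k : ℕ, 1 ≤ k → ∀ (I : Finset (Fin k))
      (νf : Ty τ N (Fin k) → Finset (Fin k × Rg (N + 1)) → Kd τ N k → Ty τ N (Fin k)),
    (∀ (r : Fin 3) (lb : Fin k → Rg (N + 1)), (∀ v, v ∉ I → inR r (lb v)) →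
      (∀ v, v ∉ I → ∀ v', v' ∉ I → Adj (lb v) (lb v')) →
      (∀ (l : Option (Σ l : Fin σ.m, (Fin (σ.ar l) → Fin k)))
        (p : Fin 6 → So N k → Ty τ N (Fin k)), VT (RR F Al k) l I p →
        ((∀ v, v ∉ I → lb v = none) ∨ ∃ x y : So N k → Ty τ N (Fin k), p = pat r x y) →
        RR F Al k l (fun e => vl F I νf r lb e (fun c => p c e))) ∧
      ∀ (e : So N k) (t : Ty τ N (Fin k)), vl F I νf r lb e (fun _ => t) = t) →
    Chn (RR F Al k) none I

/-- correctness of the reduction: from colourings to assignments -/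
def T_REA : Prop :=
  ∀ (τ σ : Sig) (N : ℕ) (F : Set (Str τ (Fin N))) (Al : Fin σ.m → Fin τ.m → Prop),
    Hyp τ N F → ∀ (n : ℕ) (𝕏 : Str σ (Fin n)) (M : Str τ (Fin n)), Val F M → Cols Al M 𝕏 →
    ∃ q : (j : Fin N) → (Fin (j + 1) → Fin (n + N)) → DmG τ N,
      ∀ (s : Option (Fin σ.m)) (y : Fin (arP σ N s) → Fin (n + N))
        (t : Fin (arP σ N s) → Fin (arP σ N s)), relP (pls 𝕏 N) N s y →
        (∀ a b, y a ≤ y b ↔ t a ≤ t b) → FmG F Al s t (fun p => q p.1 (fun i => y (p.2 i)))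

/-- correctness of the reduction: from assignments to colourings -/
def T_REB : Prop :=
  ∀ (τ σ : Sig) (N : ℕ) (F : Set (Str τ (Fin N))) (Al : Fin σ.m → Fin τ.m → Prop),
    Hyp τ N F → ∀ (n : ℕ) (𝕏 : Str σ (Fin n))
      (q : (j : Fin N) → (Fin (j + 1) → Fin (n + N)) → DmG τ N),
      (∀ (s : Option (Fin σ.m)) (y : Fin (arP σ N s) → Fin (n + N))
        (t : Fin (arP σ N s) → Fin (arP σ N s)), relP (pls 𝕏 N) N s y →
        (∀ a b, y a ≤ y b ↔ t a ≤ t b) → FmG F Al s t (fun p => q p.1 (fun i => y (p.2 i)))) →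
    ∃ M : Str τ (Fin n), Val F M ∧ Cols Al M 𝕏

end Pool.Agent.H53.GM
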